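import Pool.Agent.H926Z.W2.One

/-! Realising laminates of diagonal second derivatives on boxes. -/

namespace Pool.Agent.H926Z.W2

open Set Filter Topology MeasureTheory Function

variable {n : ℕ}

/-- `w` is continuous, differentiable along coordinate lines, and the derivative along the `j`-th
line has right derivative `d y j` at `y`. -/
def Has2 (w : (Fin n → ℝ) → ℝ) (d : (Fin n → ℝ) → Fin n → ℝ) : Prop :=
  Continuous w ∧ ∀ y j, ∃ g : ℝ → ℝ, (∀ s, HasDerivAt (fun s => w (update y j s)) (g s) s) ∧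
    HasDerivWithinAt g (d y j) (Ici (y j)) (y j)

theorem Has2.zero : Has2 (n := n) 0 0 :=
  ⟨continuous_zero, fun y j => ⟨fun _ => 0, fun s => hasDerivAt_const s (0 : ℝ),
    hasDerivWithinAt_const _ _ (0 : ℝ)⟩⟩

theorem Has2.add {w w' : (Fin n → ℝ) → ℝ} {d d' : (Fin n → ℝ) → Fin n → ℝ} (h : Has2 w d)
    (h' : Has2 w' d') : Has2 (w + w') (d + d') := by
  refine ⟨h.1.add h'.1, fun y j => ?_⟩
  obtain ⟨g, hg, hg'⟩ := h.2 y j
  obtain ⟨k, hk, hk'⟩ := h'.2 y j
  exact ⟨fun s => g s + k s, fun s => (hg s).add (hk s), hg'.add hk'⟩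

theorem Has2.sum {ι : Type*} (s : Finset ι) {w : ι → (Fin n → ℝ) → ℝ}
    {d : ι → (Fin n → ℝ) → Fin n → ℝ} (h : ∀ i, Has2 (w i) (d i)) :
    Has2 (∑ i ∈ s, w i) (∑ i ∈ s, d i) := by
  classical
  induction s using Finset.induction_on with
  | empty => simpa using Has2.zero
  | insert a s ha ih => rw [Finset.sum_insert ha, Finset.sum_insert ha]; exact (h a).add ih

theorem Has2.prod {f f2 : Fin n → ℝ → ℝ} (h : ∀ k, Has1 (f k) (f2 k)) :
    Has2 (fun y => ∏ k, f k (y k))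
      (fun y j => f2 j (y j) * ∏ k ∈ Finset.univ.erase j, f k (y k)) := by
  refine ⟨continuous_finset_prod _ fun k _ => (h k).continuous.comp (continuous_apply k),
    fun y j => ?_⟩
  obtain ⟨g, hg, hg'⟩ := h j
  refine ⟨fun s => g s * ∏ k ∈ Finset.univ.erase j, f k (y k), fun s => ?_, (hg' _).mul_const _⟩
  have : (fun s => ∏ k, f k (update y j s k)) =
      fun s => f j s * ∏ k ∈ Finset.univ.erase j, f k (y k) := by
    funext s
    rw [← Finset.mul_prod_erase _ _ (Finset.mem_univ j), update_self]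
    congr 1
    exact Finset.prod_congr rfl fun k hk => by rw [update_of_ne (Finset.ne_of_mem_erase hk)]
  rw [this]
  exact (hg s).mul_const _

/-- The half-open box. -/
def box (a b : Fin n → ℝ) : Set (Fin n → ℝ) := Set.pi univ fun k => Ico (a k) (b k)

theorem mem_box {a b y : Fin n → ℝ} : y ∈ box a b ↔ ∀ k, y k ∈ Ico (a k) (b k) := by
  simp [box]

theorem measurableSet_box (a b : Fin n → ℝ) : MeasurableSet (box a b) :=
  MeasurableSet.univ_pi fun _ => measurableSet_Ico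

theorem volume_box {a b : Fin n → ℝ} (h : ∀ k, a k ≤ b k) :
    volume (box a b) = ENNReal.ofReal (∏ k, (b k - a k)) := by
  rw [box, Real.volume_pi_Ico, ENNReal.ofReal_prod_of_nonneg fun k _ => sub_nonneg.2 (h k)]

section

variable (Adm Tgt : (Fin n → ℝ) → Prop)

/-- A perturbation `w` supported in `Q` of a function with diagonal second derivatives `x`. -/
structure Rlz (x : Fin n → ℝ) (Q : Set (Fin n → ℝ)) (η : ℝ) (w : (Fin n → ℝ) → ℝ)
    (d : (Fin n → ℝ) → Fin n → ℝ) (G : Set (Fin n → ℝ)) : Prop where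
  has : Has2 w d
  zero : ∀ y, y ∉ Q → w y = 0 ∧ d y = 0
  small : ∀ y, |w y| ≤ η
  adm : ∀ y ∈ Q, Adm (x + d y)
  meas : MeasurableSet G
  sub : G ⊆ Q
  tgt : ∀ y ∈ G, Tgt (x + d y)

/-- A perturbation reaching the target on a set of measure at least `v`. -/
def GoodOn (x : Fin n → ℝ) (Q : Set (Fin n → ℝ)) (η v : ℝ) : Prop :=
  ∃ w d G, Rlz Adm Tgt x Q η w d G ∧ ENNReal.ofReal v ≤ volume G

/-- On every box the target can be reached on any fraction below `P`. -/
def Good (x : Fin n → ℝ) (P : ℝ) : Prop :=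
  ∀ p < P, ∀ a b : Fin n → ℝ, (∀ k, a k < b k) → ∀ η > 0,
    GoodOn Adm Tgt x (box a b) η (p * ∏ k, (b k - a k))

variable {Adm Tgt}

theorem GoodOn.mono {x : Fin n → ℝ} {Q : Set (Fin n → ℝ)} {η η' v v' : ℝ}
    (h : GoodOn Adm Tgt x Q η v) (hη : η ≤ η') (hv : v' ≤ v) : GoodOn Adm Tgt x Q η' v' := by
  obtain ⟨w, d, G, h, hG⟩ := h
  exact ⟨w, d, G, ⟨h.has, h.zero, fun y => (h.small y).trans hη, h.adm, h.meas, h.sub, h.tgt⟩,
    (ENNReal.ofReal_le_ofReal hv).trans hG⟩

theorem glue {ι : Type} [Fintype ι] {x : Fin n → ℝ} {Q : Set (Fin n → ℝ)} {η₀ η₁ : ℝ}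
    (hη₁ : 0 ≤ η₁) {w₀ : (Fin n → ℝ) → ℝ} {d₀ : (Fin n → ℝ) → Fin n → ℝ}
    (h₀ : Rlz Adm Tgt x Q η₀ w₀ d₀ ∅) (R : ι → Set (Fin n → ℝ)) (hR : ∀ i, R i ⊆ Q)
    (hdis : Pairwise fun i j => Disjoint (R i) (R j)) (xs : ι → Fin n → ℝ)
    (hxs : ∀ i, ∀ y ∈ R i, x + d₀ y = xs i) (v : ι → ℝ)
    (hg : ∀ i, GoodOn Adm Tgt (xs i) (R i) η₁ (v i)) :
    GoodOn Adm Tgt x Q (η₀ + η₁) (∑ i, v i) := by
  classical
  choose w d G hr hG using hg
  have hin : ∀ i, ∀ y ∈ R i, (∑ j, w j) y = w i y ∧ (∑ j, d j) y = d i y := by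
    intro i y hy
    have hj : ∀ j, j ≠ i → y ∉ R j := fun j hj hyj =>
      (Set.disjoint_left.1 (hdis hj)) hyj hy
    rw [Finset.sum_apply, Finset.sum_apply]
    exact ⟨Finset.sum_eq_single i (fun j _ hji => ((hr j).zero y (hj j hji)).1) (by simp),
      Finset.sum_eq_single i (fun j _ hji => ((hr j).zero y (hj j hji)).2) (by simp)⟩
  have hout : ∀ y, (∀ i, y ∉ R i) → (∑ j, w j) y = 0 ∧ (∑ j, d j) y = 0 := by
    intro y hy
    rw [Finset.sum_apply, Finset.sum_apply]
    exact ⟨Finset.sum_eq_zero fun j _ => ((hr j).zero y (hy j)).1,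
      Finset.sum_eq_zero fun j _ => ((hr j).zero y (hy j)).2⟩
  refine ⟨w₀ + ∑ i, w i, d₀ + ∑ i, d i, ⋃ i, G i,
    ⟨h₀.has.add (Has2.sum _ fun i => (hr i).has), fun y hy => ?_, fun y => ?_, fun y hy => ?_,
      MeasurableSet.iUnion fun i => (hr i).meas,
      iUnion_subset fun i => (hr i).sub.trans (hR i), fun y hy => ?_⟩, ?_⟩
  · have := hout y fun i hi => hy (hR i hi)
    rw [Pi.add_apply, Pi.add_apply, this.1, this.2, (h₀.zero y hy).1, (h₀.zero y hy).2]
    simp
  · rw [Pi.add_apply]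
    refine (abs_add_le _ _).trans (add_le_add (h₀.small y) ?_)
    by_cases h : ∃ i, y ∈ R i
    · obtain ⟨i, hi⟩ := h
      rw [(hin i y hi).1]; exact (hr i).small y
    · push Not at h
      rw [(hout y h).1]; simpa using hη₁
  · rw [Pi.add_apply]
    by_cases h : ∃ i, y ∈ R i
    · obtain ⟨i, hi⟩ := h
      rw [(hin i y hi).2, ← add_assoc, hxs i y hi]; exact (hr i).adm y hi
    · push Not at h
      rw [(hout y h).2, add_zero]; exact h₀.adm y hy
  · obtain ⟨i, hi⟩ := mem_iUnion.1 hy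
    have hi' := (hr i).sub hi
    rw [Pi.add_apply, (hin i y hi').2, ← add_assoc, hxs i y hi']
    exact (hr i).tgt y hi
  · rw [measure_iUnion (fun i j hij => (hdis hij).mono (hr i).sub (hr j).sub)
      (fun i => (hr i).meas), tsum_fintype]
    refine le_trans ?_ (Finset.sum_le_sum fun i _ => hG i)
    induction (Finset.univ : Finset ι) using Finset.induction_on with
    | empty => simp
    | insert a s ha ih =>
      rw [Finset.sum_insert ha, Finset.sum_insert ha]
      exact ENNReal.ofReal_add_le.trans (add_le_add le_rfl ih)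

theorem rlz_zero {x : Fin n → ℝ} (hx : Adm x) (Q : Set (Fin n → ℝ)) :
    Rlz Adm Tgt x Q 0 0 0 ∅ :=
  ⟨Has2.zero, fun _ _ => ⟨rfl, rfl⟩, fun _ => by simp, fun _ _ => by simpa using hx,
    MeasurableSet.empty, empty_subset _, fun _ h => h.elim⟩

theorem Good.mono {x : Fin n → ℝ} {P P' : ℝ} (h : Good Adm Tgt x P) (hP : P' ≤ P) :
    Good Adm Tgt x P' := fun p hp => h p (hp.trans_le hP)

theorem good_zero {x : Fin n → ℝ} (hx : Adm x) : Good Adm Tgt x 0 := by
  intro p hp a b hab η hη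
  have : 0 ≤ ∏ k, (b k - a k) := Finset.prod_nonneg fun k _ => (sub_pos.2 (hab k)).le
  refine ⟨0, 0, ∅, ⟨Has2.zero, fun _ _ => ⟨rfl, rfl⟩, fun _ => by simpa using hη.le,
    fun _ _ => by simpa using hx, MeasurableSet.empty, empty_subset _, fun _ h => h.elim⟩, ?_⟩
  rw [ENNReal.ofReal_of_nonpos (by nlinarith)]
  exact zero_le

theorem good_one {x : Fin n → ℝ} (hx : Adm x) (ht : Tgt x) : Good Adm Tgt x 1 := by
  intro p hp a b hab η hη
  have : 0 ≤ ∏ k, (b k - a k) := Finset.prod_nonneg fun k _ => (sub_pos.2 (hab k)).le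
  refine ⟨0, 0, box a b, ⟨Has2.zero, fun _ _ => ⟨rfl, rfl⟩, fun _ => by simpa using hη.le,
    fun _ _ => by simpa using hx, measurableSet_box a b, subset_rfl,
    fun _ _ => by simpa using ht⟩, ?_⟩
  rw [volume_box fun k => (hab k).le]
  exact ENNReal.ofReal_le_ofReal (by nlinarith)

theorem prod_update_sub (a b : Fin n → ℝ) (i : Fin n) (s t : ℝ) :
    ∏ k, (update b i t k - update a i s k) = (t - s) * ∏ k ∈ Finset.univ.erase i, (b k - a k) := by
  rw [← Finset.mul_prod_erase _ _ (Finset.mem_univ i), update_self, update_self]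
  congr 1
  exact Finset.prod_congr rfl fun k hk => by
    rw [update_of_ne (Finset.ne_of_mem_erase hk), update_of_ne (Finset.ne_of_mem_erase hk)]

theorem mem_box_update {a b y : Fin n → ℝ} {i : Fin n} {s t : ℝ} :
    y ∈ box (update a i s) (update b i t) ↔
      y i ∈ Ico s t ∧ ∀ k, k ≠ i → y k ∈ Ico (a k) (b k) := by
  rw [mem_box]
  constructor
  · intro h
    refine ⟨by simpa using h i, fun k hk => ?_⟩
    have := h k
    rwa [update_of_ne hk, update_of_ne hk] at this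
  · rintro ⟨h1, h2⟩ k
    by_cases hk : k = i
    · subst hk; simpa using h1
    · rw [update_of_ne hk, update_of_ne hk]; exact h2 k hk

theorem good_piece {x : Fin n → ℝ} {P p : ℝ} (h : Good Adm Tgt x P) (hx : Adm x) (hp : p < P)
    {a b : Fin n → ℝ} (hab : ∀ k, a k < b k) (i : Fin n) {s t : ℝ} (hst : s ≤ t) {η : ℝ}
    (hη : 0 < η) :
    GoodOn Adm Tgt x (box (update a i s) (update b i t)) η
      (p * ((t - s) * ∏ k ∈ Finset.univ.erase i, (b k - a k))) := by
  rcases hst.eq_or_lt with rfl | hst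
  · refine ⟨0, 0, ∅, ⟨Has2.zero, fun _ _ => ⟨rfl, rfl⟩, fun _ => by simpa using hη.le,
      fun _ _ => by simpa using hx, MeasurableSet.empty, empty_subset _, fun _ h => h.elim⟩, ?_⟩
    simp
  · rw [← prod_update_sub]
    refine h p hp _ _ (fun k => ?_) η hη
    by_cases hk : k = i
    · subst hk; simpa using hst
    · rw [update_of_ne hk, update_of_ne hk]; exact hab k

/-- The splitting step on a thin slab. -/
theorem slab {x : Fin n → ℝ} {i : Fin n} {θ h η₀ : ℝ} (h0 : 0 ≤ θ) (h1 : θ ≤ 1) (hη₀ : 0 ≤ η₀)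
    (hseg : ∀ z : Fin n → ℝ, (∀ j, j ≠ i → |z j - x j| ≤ η₀) →
      z i ∈ uIcc (x i - θ * h) (x i + (1 - θ) * h) → Adm z)
    {P₁ P₂ p₁ p₂ : ℝ} (g₁ : Good Adm Tgt (update x i (x i - θ * h)) P₁)
    (g₂ : Good Adm Tgt (update x i (x i + (1 - θ) * h)) P₂) (hp₁ : p₁ < P₁) (hp₂ : p₂ < P₂)
    {a b A B : Fin n → ℝ} (hAB : ∀ k, A k < B k) (haA : ∀ k, a k ≤ A k) (hBb : ∀ k, B k ≤ b k)
    {f f2 : Fin n → ℝ → ℝ} {C : ℝ} (hC : 0 ≤ C) (hf : ∀ k, Has1 (f k) (f2 k))
    (hf0 : ∀ k s, s ∉ Ico (a k) (b k) → f k s = 0 ∧ f2 k s = 0)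
    (hf1 : ∀ k s, 0 ≤ f k s ∧ f k s ≤ 1) (hfC : ∀ k s, |f2 k s| ≤ C)
    (hfin : ∀ k, ∀ s ∈ Ico (A k) (B k), f k s = 1 ∧ f2 k s = 0)
    {c δ η : ℝ} (hδ : 0 < δ) (hη : 0 < η) (hδ1 : 4 * |h| * δ ^ 2 ≤ η)
    (hδ2 : C * (4 * |h| * δ ^ 2) ≤ η₀) :
    GoodOn Adm Tgt x (box (update a i c) (update b i (c + δ))) (η + η)
      (((1 - θ) * p₁ + θ * p₂) * (δ * ∏ k ∈ Finset.univ.erase i, (B k - A k))) := by
  classical
  obtain ⟨o, o2, ho, ho0, hob, hoa, hom, hoc⟩ := exists_osc c δ θ h hδ h0 h1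
  have hθδ : 0 ≤ θ * δ := mul_nonneg h0 hδ.le
  have hθδ' : θ * δ ≤ δ := by nlinarith
  set F := update f i o with hF
  set F2 := update f2 i o2 with hF2
  have hFF : ∀ k, Has1 (F k) (F2 k) := fun k => by
    by_cases hk : k = i
    · subst hk; simpa [hF, hF2] using ho
    · simpa [hF, hF2, update_of_ne hk] using hf k
  have hprod01 : ∀ (s : Finset (Fin n)) (y : Fin n → ℝ), i ∉ s →
      0 ≤ ∏ k ∈ s, F k (y k) ∧ ∏ k ∈ s, F k (y k) ≤ 1 := by
    intro s y hi
    have : ∀ k ∈ s, 0 ≤ F k (y k) ∧ F k (y k) ≤ 1 := fun k hk => by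
      have hk' : k ≠ i := fun h => hi (h ▸ hk)
      simpa [hF, update_of_ne hk'] using hf1 k (y k)
    exact ⟨Finset.prod_nonneg fun k hk => (this k hk).1,
      Finset.prod_le_one (fun k hk => (this k hk).1) fun k hk => (this k hk).2⟩
  have hprodi : ∀ (s : Finset (Fin n)) (y : Fin n → ℝ), i ∈ s →
      |∏ k ∈ s, F k (y k)| ≤ 4 * |h| * δ ^ 2 := by
    intro s y hi
    rw [← Finset.mul_prod_erase _ _ hi, abs_mul]
    have h2 := hprod01 (s.erase i) y (Finset.notMem_erase i s)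
    have h3 : |F i (y i)| ≤ 4 * |h| * δ ^ 2 := by simpa [hF] using hob (y i)
    rw [abs_of_nonneg h2.1]
    calc _ ≤ 4 * |h| * δ ^ 2 * 1 := mul_le_mul h3 h2.2 h2.1 (by positivity)
      _ = _ := mul_one _
  have ho2 : ∀ s ∈ Ico c (c + δ), o2 s = (1 - θ) * h ∨ o2 s = -θ * h := by
    intro s hs
    by_cases e1 : s < c + θ * δ / 2
    · exact Or.inl (hoa s ⟨hs.1, e1⟩)
    · by_cases e2 : s < c + δ - θ * δ / 2
      · exact Or.inr (hom s ⟨not_lt.1 e1, e2⟩)
      · exact Or.inl (hoc s ⟨not_lt.1 e2, hs.2⟩)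
  have base : Rlz Adm Tgt x (box (update a i c) (update b i (c + δ))) η
      (fun y => ∏ k, F k (y k))
      (fun y j => F2 j (y j) * ∏ k ∈ Finset.univ.erase j, F k (y k)) ∅ := by
    refine ⟨Has2.prod hFF, fun y hy => ?_, fun y => (hprodi _ y (Finset.mem_univ i)).trans hδ1,
      fun y hy => ?_, MeasurableSet.empty, empty_subset _, fun _ h => h.elim⟩
    · have : ∃ k, F k (y k) = 0 ∧ F2 k (y k) = 0 := by
        rw [mem_box_update, not_and_or] at hy
        rcases hy with hy | hy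
        · exact ⟨i, by simpa [hF, hF2] using ho0 _ hy⟩
        · push Not at hy
          obtain ⟨k, hk, hy⟩ := hy
          exact ⟨k, by simpa [hF, hF2, update_of_ne hk] using hf0 k _ hy⟩
      obtain ⟨k, hk1, hk2⟩ := this
      refine ⟨Finset.prod_eq_zero (Finset.mem_univ k) hk1, funext fun j => ?_⟩
      by_cases hj : k = j
      · subst hj; simp [hk2]
      · rw [Finset.prod_eq_zero (Finset.mem_erase.2 ⟨hj, Finset.mem_univ k⟩) hk1]; simp
    · apply hseg
      · intro j hj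
        rw [Pi.add_apply, add_sub_cancel_left, abs_mul]
        have e1 : |F2 j (y j)| ≤ C := by simpa [hF2, update_of_ne hj] using hfC j (y j)
        have e2 := hprodi (Finset.univ.erase j) y (Finset.mem_erase.2 ⟨hj.symm, Finset.mem_univ i⟩)
        exact (mul_le_mul e1 e2 (abs_nonneg _) hC).trans hδ2
      · have e := hprod01 (Finset.univ.erase i) y (Finset.notMem_erase i _)
        have e2 : F2 i (y i) = o2 (y i) := by simp [hF2]
        rw [Pi.add_apply, e2]
        set χ := ∏ k ∈ Finset.univ.erase i, F k (y k)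
        have hθ' : 0 ≤ 1 - θ := by linarith
        have m1 := mul_nonneg hθ' e.1
        have m2 := mul_nonneg h0 e.1
        have m3 := mul_nonneg hθ' (sub_nonneg.2 e.2)
        have m4 := mul_nonneg h0 (sub_nonneg.2 e.2)
        rw [mem_uIcc]
        rcases le_total 0 h with hh | hh
        · left
          rcases ho2 _ (mem_box_update.1 hy).1 with e3 | e3 <;> rw [e3] <;> constructor <;>
            nlinarith [mul_nonneg m1 hh, mul_nonneg m2 hh, mul_nonneg m3 hh, mul_nonneg m4 hh,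
              mul_nonneg h0 hh, mul_nonneg hθ' hh]
        · right
          have hh' := neg_nonneg.2 hh
          rcases ho2 _ (mem_box_update.1 hy).1 with e3 | e3 <;> rw [e3] <;> constructor <;>
            nlinarith [mul_nonneg m1 hh', mul_nonneg m2 hh', mul_nonneg m3 hh', mul_nonneg m4 hh',
              mul_nonneg h0 hh', mul_nonneg hθ' hh']
  have adm1 : Adm (update x i (x i - θ * h)) :=
    hseg _ (fun j hj => by simpa [update_of_ne hj] using hη₀) (by simp)
  have adm2 : Adm (update x i (x i + (1 - θ) * h)) :=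
    hseg _ (fun j hj => by simpa [update_of_ne hj] using hη₀) (by simp)
  let lo : Fin 3 → ℝ := ![c, c + θ * δ / 2, c + δ - θ * δ / 2]
  let hi : Fin 3 → ℝ := ![c + θ * δ / 2, c + δ - θ * δ / 2, c + δ]
  let val : Fin 3 → ℝ := ![x i + (1 - θ) * h, x i - θ * h, x i + (1 - θ) * h]
  let pp : Fin 3 → ℝ := ![p₂, p₁, p₂]
  have hlo : ∀ r, c ≤ lo r ∧ lo r ≤ hi r ∧ hi r ≤ c + δ := by
    intro r
    fin_cases r
    · exact ⟨le_rfl, by simp only [lo, hi]; simp; linarith, by simp only [hi]; simp; linarith⟩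
    · exact ⟨by simp only [lo]; simp; linarith, by simp only [lo, hi]; simp; linarith,
        by simp only [hi]; simp; linarith⟩
    · exact ⟨by simp only [lo]; simp; linarith, by simp only [lo, hi]; simp; linarith, le_rfl⟩
  have hval : ∀ r, ∀ s ∈ Ico (lo r) (hi r), x i + o2 s = val r := by
    intro r s hs
    fin_cases r
    · simp only [lo, hi, val] at hs ⊢; rw [hoa s hs]; rfl
    · simp only [lo, hi, val] at hs ⊢; rw [hom s hs]; simp; ring
    · simp only [lo, hi, val] at hs ⊢; rw [hoc s hs]; rfl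
  have key := glue hη.le base (fun r => box (update A i (lo r)) (update B i (hi r)))
    (fun r y hy => by
      rw [mem_box_update] at hy ⊢
      exact ⟨⟨(hlo r).1.trans hy.1.1, hy.1.2.trans_le (hlo r).2.2⟩,
        fun k hk => ⟨(haA k).trans (hy.2 k hk).1, (hy.2 k hk).2.trans_le (hBb k)⟩⟩)
    (fun r r' hrr => by
      refine Set.disjoint_left.2 fun y hy hy' => ?_
      have e1 := (mem_box_update.1 hy).1
      have e2 := (mem_box_update.1 hy').1
      fin_cases r <;> fin_cases r' <;> simp [lo, hi] at hrr e1 e2 <;> linarith [e1.1, e1.2, e2.1, e2.2])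
    (fun r => update x i (val r))
    (fun r y hy => by
      rw [mem_box_update] at hy
      have e1 : ∀ k, k ≠ i → F k (y k) = 1 ∧ F2 k (y k) = 0 := fun k hk => by
        simpa [hF, hF2, update_of_ne hk] using hfin k _ (hy.2 k hk)
      funext j
      by_cases hj : j = i
      · subst hj
        rw [Pi.add_apply, update_self, Finset.prod_eq_one fun k hk =>
          (e1 k (Finset.ne_of_mem_erase hk)).1, mul_one, ← hval r _ hy.1]
        simp [hF2]
      · rw [Pi.add_apply, update_of_ne hj, (e1 j hj).2]; simp)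
    (fun r => pp r * ((hi r - lo r) * ∏ k ∈ Finset.univ.erase i, (B k - A k)))
    (fun r => by
      fin_cases r
      · exact good_piece g₂ adm2 hp₂ hAB i (hlo 0).2.1 hη
      · exact good_piece g₁ adm1 hp₁ hAB i (hlo 1).2.1 hη
      · exact good_piece g₂ adm2 hp₂ hAB i (hlo 2).2.1 hη)
  refine key.mono le_rfl (le_of_eq ?_)
  simp only [Fin.sum_univ_three, lo, hi, pp, Matrix.cons_val_zero, Matrix.cons_val_one,
    Matrix.cons_val]
  ring

/-- The splitting step: `Good` is separately concave along admissible segments. -/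
theorem good_split {x : Fin n → ℝ} {i : Fin n} {θ h η₀ : ℝ} (h0 : 0 ≤ θ) (h1 : θ ≤ 1)
    (hη₀ : 0 < η₀)
    (hseg : ∀ z : Fin n → ℝ, (∀ j, j ≠ i → |z j - x j| ≤ η₀) →
      z i ∈ uIcc (x i - θ * h) (x i + (1 - θ) * h) → Adm z)
    {P₁ P₂ : ℝ} (g₁ : Good Adm Tgt (update x i (x i - θ * h)) P₁)
    (g₂ : Good Adm Tgt (update x i (x i + (1 - θ) * h)) P₂) :
    Good Adm Tgt x ((1 - θ) * P₁ + θ * P₂) := by
  classical
  intro p hp a b hab η hη
  set e := ((1 - θ) * P₁ + θ * P₂ - p) / 2 with he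
  have he0 : 0 < e := by rw [he]; linarith
  set p₁ := P₁ - e
  set p₂ := P₂ - e
  have hpp : p < (1 - θ) * p₁ + θ * p₂ := by
    have : (1 - θ) * p₁ + θ * p₂ = (1 - θ) * P₁ + θ * P₂ - e := by simp only [p₁, p₂]; ring
    rw [this, he]; linarith
  -- choose the inner fraction
  obtain ⟨τ, hτ0, hτ1, hτ⟩ : ∃ τ : ℝ, 0 < τ ∧ τ < 1 ∧
      p < ((1 - θ) * p₁ + θ * p₂) * (1 - τ) ^ (Finset.univ.erase i).card := by
    have hc : Continuous fun τ : ℝ =>
        ((1 - θ) * p₁ + θ * p₂) * (1 - τ) ^ (Finset.univ.erase i).card := by fun_prop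
    have e1 : ∀ᶠ τ in 𝓝 (0 : ℝ),
        p < ((1 - θ) * p₁ + θ * p₂) * (1 - τ) ^ (Finset.univ.erase i).card :=
      hc.continuousAt.eventually (lt_mem_nhds (by simpa using hpp))
    have e2 : ∀ᶠ τ in 𝓝 (0 : ℝ), τ < 1 := gt_mem_nhds one_pos
    have e3 : ∀ᶠ τ in 𝓝[>] (0 : ℝ), 0 < τ := self_mem_nhdsWithin
    obtain ⟨τ, h⟩ := (e3.and ((e2.and e1).filter_mono nhdsWithin_le_nhds)).exists
    exact ⟨τ, h.1, h.2.1, h.2.2⟩
  have hcut := fun k => exists_cut (a k) (b k) (τ * (b k - a k) / 2)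
    (by have := sub_pos.2 (hab k); positivity) (by have := sub_pos.2 (hab k); nlinarith)
  choose f f2 C hf hf0 hf1 hfC hfin using hcut
  set C₀ := ∑ k, |C k| with hC₀
  have hC₀0 : 0 ≤ C₀ := Finset.sum_nonneg fun k _ => abs_nonneg _
  have hfC' : ∀ k s, |f2 k s| ≤ C₀ := fun k s => (hfC k s).trans ((le_abs_self _).trans
    (Finset.single_le_sum (f := fun k => |C k|) (fun k _ => abs_nonneg _) (Finset.mem_univ k)))
  have hl : 0 < b i - a i := sub_pos.2 (hab i)
  obtain ⟨N, hN1, hN2, hN0⟩ : ∃ N : ℕ, 4 * |h| * ((b i - a i) / N) ^ 2 ≤ η / 2 ∧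
      C₀ * (4 * |h| * ((b i - a i) / N) ^ 2) ≤ η₀ ∧ 0 < N := by
    have t0 : Tendsto (fun N : ℕ => (b i - a i) / N) atTop (𝓝 0) :=
      tendsto_const_div_atTop_nhds_zero_nat _
    have t1 : Tendsto (fun N : ℕ => 4 * |h| * ((b i - a i) / N) ^ 2) atTop (𝓝 0) := by
      simpa using (t0.pow 2).const_mul (4 * |h|)
    have t2 : Tendsto (fun N : ℕ => C₀ * (4 * |h| * ((b i - a i) / N) ^ 2)) atTop (𝓝 0) := by
      simpa using t1.const_mul C₀
    exact ((t1.eventually (ge_mem_nhds (half_pos hη))).and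
      ((t2.eventually (ge_mem_nhds hη₀)).and (eventually_gt_atTop 0))).exists
  set δ := (b i - a i) / N with hδ
  have hN' : (0 : ℝ) < N := by exact_mod_cast hN0
  have hδ0 : 0 < δ := div_pos hl hN'
  have hNδ : N * δ = b i - a i := by rw [hδ]; field_simp
  have admx : Adm x := hseg x (fun j _ => by simpa using hη₀.le) (by
    rw [mem_uIcc]
    rcases le_total 0 h with hh | hh
    · left; constructor <;> nlinarith [mul_nonneg h0 hh, mul_nonneg (sub_nonneg.2 h1) hh]
    · right; constructor <;>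
        nlinarith [mul_nonneg h0 (neg_nonneg.2 hh), mul_nonneg (sub_nonneg.2 h1) (neg_nonneg.2 hh)])
  have key := glue (ι := Fin N) (η₁ := η / 2 + η / 2) (by positivity)
    (rlz_zero (Tgt := Tgt) admx (box a b))
    (fun m => box (update a i (a i + m * δ)) (update b i (a i + m * δ + δ)))
    (fun m y hy => by
      rw [mem_box_update] at hy
      rw [mem_box]
      intro k
      by_cases hk : k = i
      · subst hk
        have m1 : (0 : ℝ) ≤ (m : ℕ) * δ := by positivity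
        have m2 : ((m : ℕ) : ℝ) + 1 ≤ N := by exact_mod_cast m.2
        have m3 := mul_le_mul_of_nonneg_right m2 hδ0.le
        exact ⟨by linarith [hy.1.1], by linarith [hy.1.2]⟩
      · exact hy.2 k hk)
    (fun m m' hmm => by
      refine Set.disjoint_left.2 fun y hy hy' => ?_
      have e1 := (mem_box_update.1 hy).1
      have e2 := (mem_box_update.1 hy').1
      rcases lt_or_gt_of_ne hmm with hlt | hlt
      · have m2 : ((m : ℕ) : ℝ) + 1 ≤ (m' : ℕ) := by exact_mod_cast hlt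
        have m3 := mul_le_mul_of_nonneg_right m2 hδ0.le
        linarith [e1.2, e2.1]
      · have m2 : ((m' : ℕ) : ℝ) + 1 ≤ (m : ℕ) := by exact_mod_cast hlt
        have m3 := mul_le_mul_of_nonneg_right m2 hδ0.le
        linarith [e2.2, e1.1])
    (fun _ => x) (fun _ _ _ => by simp)
    (fun _ => ((1 - θ) * p₁ + θ * p₂) * (δ * ∏ k ∈ Finset.univ.erase i,
      ((b k - τ * (b k - a k) / 2) - (a k + τ * (b k - a k) / 2))))
    (fun m => slab h0 h1 hη₀.le hseg g₁ g₂ (by simp only [p₁]; linarith)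
      (by simp only [p₂]; linarith)
      (fun k => by have := sub_pos.2 (hab k); nlinarith)
      (fun k => by have := mul_pos hτ0 (sub_pos.2 (hab k)); linarith)
      (fun k => by have := mul_pos hτ0 (sub_pos.2 (hab k)); linarith)
      hC₀0 hf hf0 hf1 hfC' hfin hδ0 (half_pos hη) hN1 hN2)
  refine key.mono (by linarith) ?_
  rw [Finset.sum_const, Finset.card_univ, Fintype.card_fin, nsmul_eq_mul,
    ← Finset.mul_prod_erase _ _ (Finset.mem_univ i)]
  have e1 : ∏ k ∈ Finset.univ.erase i, ((b k - τ * (b k - a k) / 2) - (a k + τ * (b k - a k) / 2))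
      = (1 - τ) ^ (Finset.univ.erase i).card * ∏ k ∈ Finset.univ.erase i, (b k - a k) := by
    rw [← Finset.prod_const, ← Finset.prod_mul_distrib]
    exact Finset.prod_congr rfl fun k _ => by ring
  have e2 : 0 ≤ (b i - a i) * ∏ k ∈ Finset.univ.erase i, (b k - a k) :=
    mul_nonneg hl.le (Finset.prod_nonneg fun k _ => (sub_pos.2 (hab k)).le)
  rw [e1]
  calc _ ≤ ((1 - θ) * p₁ + θ * p₂) * (1 - τ) ^ (Finset.univ.erase i).card *
        ((b i - a i) * ∏ k ∈ Finset.univ.erase i, (b k - a k)) :=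
        mul_le_mul_of_nonneg_right hτ.le e2
    _ = _ := by rw [← hNδ]; ring

end

end Pool.Agent.H926Z.W2
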