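import Mathlib

/-!
# The exponent of the Hessian measure estimate for uniformly elliptic equations

Definitions: Pucci operators through eigenvalues, the class `S(λ,Λ)` in the viscosity sense on the
unit ball, the opening function `Θ(u,x)`, the estimate with exponent `ε`, and the supremum `ε*`.
-/

namespace Pool.Agent.H926Z.W2

open Metric MeasureTheory
open scoped ENNReal RealInnerProductSpace

/-- Euclidean space `ℝⁿ`. -/
abbrev E (n : ℕ) : Type := EuclideanSpace ℝ (Fin n)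

variable {n : ℕ}

/-- `M⁻(X) = λ ∑_{e_i > 0} e_i + Λ ∑_{e_i < 0} e_i`, the `e_i` being the eigenvalues (with
multiplicity) of the real symmetric matrix `X`. -/
noncomputable def pucciMinus (lam Lam : ℝ) {X : Matrix (Fin n) (Fin n) ℝ} (hX : X.IsHermitian) :
    ℝ :=
  lam * (∑ i with 0 < hX.eigenvalues i, hX.eigenvalues i) +
    Lam * (∑ i with hX.eigenvalues i < 0, hX.eigenvalues i)

/-- `M⁺(X) = Λ ∑_{e_i > 0} e_i + λ ∑_{e_i < 0} e_i`. -/
noncomputable def pucciPlus (lam Lam : ℝ) {X : Matrix (Fin n) (Fin n) ℝ} (hX : X.IsHermitian) :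
    ℝ :=
  Lam * (∑ i with 0 < hX.eigenvalues i, hX.eigenvalues i) +
    lam * (∑ i with hX.eigenvalues i < 0, hX.eigenvalues i)

/-- The Hessian matrix `D²φ(x)`. -/
noncomputable def hess (φ : E n → ℝ) (x : E n) : Matrix (Fin n) (Fin n) ℝ :=
  Matrix.of fun i j =>
    fderiv ℝ (fderiv ℝ φ) x (EuclideanSpace.single i 1) (EuclideanSpace.single j 1)

/-- The Hessian of a `C²` function is symmetric. -/
theorem hess_isHermitian {φ : E n → ℝ} {x : E n} (hφ : ContDiffAt ℝ 2 φ x) :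
    (hess φ x).IsHermitian := by
  ext i j
  simp only [hess, Matrix.conjTranspose_apply, Matrix.of_apply, star_trivial]
  exact hφ.isSymmSndFDerivAt (by simp) _ _

/-- The class `S(λ,Λ)`: `u` is continuous on the unit ball `B₁` and
`M⁻(D²u) ≤ 0 ≤ M⁺(D²u)` in the viscosity sense: for `x ∈ B₁` and `φ` of class `C²` near `x`,
`M⁻(D²φ(x)) ≤ 0` if `u - φ` has a local minimum at `x`, and `M⁺(D²φ(x)) ≥ 0` if `u - φ` has a
local maximum at `x`. -/
def InS (lam Lam : ℝ) (u : E n → ℝ) : Prop :=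
  ContinuousOn u (ball 0 1) ∧
  (∀ x ∈ ball (0 : E n) 1, ∀ (φ : E n → ℝ) (hφ : ContDiffAt ℝ 2 φ x),
    IsLocalMin (fun y => u y - φ y) x → pucciMinus lam Lam (hess_isHermitian hφ) ≤ 0) ∧
  (∀ x ∈ ball (0 : E n) 1, ∀ (φ : E n → ℝ) (hφ : ContDiffAt ℝ 2 φ x),
    IsLocalMax (fun y => u y - φ y) x → 0 ≤ pucciPlus lam Lam (hess_isHermitian hφ))

/-- Paraboloids of opening `M` touch `u` at `x` both from above and from below in `B₁`. -/
def TouchBoth (u : E n → ℝ) (x : E n) (M : ℝ) : Prop :=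
  (∃ (c : ℝ) (l : E n), (∀ y ∈ ball (0 : E n) 1, u y ≤ c + ⟪l, y⟫ + M / 2 * ‖y‖ ^ 2) ∧
    u x = c + ⟪l, x⟫ + M / 2 * ‖x‖ ^ 2) ∧
  (∃ (c : ℝ) (l : E n), (∀ y ∈ ball (0 : E n) 1, c + ⟪l, y⟫ - M / 2 * ‖y‖ ^ 2 ≤ u y) ∧
    u x = c + ⟪l, x⟫ - M / 2 * ‖x‖ ^ 2)

/-- `Θ(u,x)`: the infimum of the openings `M > 0` of such paraboloids (`+∞` if there are none). -/
noncomputable def Theta (u : E n → ℝ) (x : E n) : ℝ≥0∞ :=
  ⨅ (M : ℝ) (_ : 0 < M ∧ TouchBoth u x M), ENNReal.ofReal M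

/-- The estimate with exponent `ε`: for some `C`, every `u ∈ S(λ,Λ)` with `|u| ≤ 1` on `B₁` has
`|{x ∈ B_{1/2} : Θ(u,x) > t}| ≤ C t^{-ε}` for all `t > 0`. -/
def EstimateHolds (n : ℕ) (lam Lam ε : ℝ) : Prop :=
  ∃ C : ℝ, ∀ u : E n → ℝ, InS lam Lam u → (∀ y ∈ ball (0 : E n) 1, |u y| ≤ 1) →
    ∀ t : ℝ, 0 < t →
      volume {x | x ∈ ball (0 : E n) (1 / 2) ∧ ENNReal.ofReal t < Theta u x} ≤
        ENNReal.ofReal (C * t ^ (-ε))

/-- `ε*(n,λ,Λ)`: the supremum, in `[0,∞]`, of the exponents `ε > 0` for which the estimate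
holds. -/
noncomputable def epsStar (n : ℕ) (lam Lam : ℝ) : ℝ≥0∞ :=
  ⨆ (ε : ℝ) (_ : 0 < ε ∧ EstimateHolds n lam Lam ε), ENNReal.ofReal ε

end Pool.Agent.H926Z.W2
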