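import Mathlib

/-! The coordinatewise martingale strategy. -/

namespace Pool.Agent.H926Z.W2

open Function Finset

variable {n : ℕ}

/-- The rules available at scale `M` with bound `B`. -/
structure Rules (W : (Fin n → ℝ) → ℝ → Prop) (M B : ℝ) : Prop where
  mono : ∀ x p p', W x p → p' ≤ p → W x p'
  zero : ∀ x, (∀ j, |x j| ≤ B) → (∃ p, M ≤ x p) → (∃ q, x q ≤ -M) → W x 0
  conc : ∀ x i a b θ p₁ p₂, (∀ j, |x j| ≤ B) → |a| ≤ B → |b| ≤ B → (∃ p, p ≠ i ∧ M ≤ x p) →
    (∃ q, q ≠ i ∧ x q ≤ -M) → 0 ≤ θ → θ ≤ 1 → x i = (1 - θ) * a + θ * b →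
    W (update x i a) p₁ → W (update x i b) p₂ → W x ((1 - θ) * p₁ + θ * p₂)

theorem Rules.neg {W : (Fin n → ℝ) → ℝ → Prop} {M B : ℝ} (h : Rules W M B) :
    Rules (fun x p => W (-x) p) M B := by
  have hu : ∀ (x : Fin n → ℝ) i a, -update x i a = update (-x) i (-a) := by
    intro x i a; funext j; by_cases hj : j = i
    · subst hj; simp
    · simp [update_of_ne hj]
  refine ⟨fun x p p' => h.mono _ p p', fun x hb ⟨p, hp⟩ ⟨q, hq⟩ =>
    h.zero _ (fun j => by simpa using hb j) ⟨q, by simp; linarith⟩ ⟨p, by simp; linarith⟩, ?_⟩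
  rintro x i a b θ p₁ p₂ hb ha hb' ⟨p, hp, hp'⟩ ⟨q, hq, hq'⟩ h0 h1 hx w1 w2
  refine h.conc (-x) i (-a) (-b) θ p₁ p₂ (fun j => by simpa using hb j) (by simpa using ha)
    (by simpa using hb') ⟨q, hq, by simp; linarith⟩ ⟨p, hp, by simp; linarith⟩ h0 h1
    (by simp [hx]; ring) (by rw [← hu]; exact w1) (by rw [← hu]; exact w2)

theorem prod_update_abs (x : Fin n → ℝ) (i : Fin n) (a : ℝ) (c : Fin n → ℝ) :
    ∏ j, (|update x i a j| + c j) = (|a| + c i) * ∏ j ∈ univ.erase i, (|x j| + c j) := by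
  rw [← mul_prod_erase _ _ (mem_univ i), update_self]
  congr 1
  exact prod_congr rfl fun k hk => by rw [update_of_ne (ne_of_mem_erase hk)]

theorem phase_aux {W : (Fin n → ℝ) → ℝ → Prop} {M M₂ T B κ A c : ℝ} (h : Rules W M B)
    (hM₂ : M ≤ M₂) (hM₂B : M₂ ≤ B) (hT : 0 < T) (hTB : T ≤ B) (hκ : 0 ≤ κ) (hA : 0 ≤ A)
    (hc : 0 ≤ c)
    (next : ∀ x, (∀ j, |x j| ≤ B) → (∃ p, M₂ ≤ x p) → (∃ q, x q ≤ -T) →
      W x (κ * (1 - A * ∏ j, (|x j| + c)))) (q : Fin n) :
    ∀ (m : ℕ) (J : Finset (Fin n)), J.card = m → q ∉ J → ∀ x : Fin n → ℝ, (∀ j, |x j| ≤ B) →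
      x q ≤ -M → (∃ p, M₂ ≤ x p ∧ J ≠ {p}) →
      W x (κ * (1 - ∏ j ∈ J, ((|x j| + T) / B) -
        A * ∏ j, (|x j| + (c + if j ∈ J then 2 * T else 0)))) := by
  have hB : 0 < B := hT.trans_le hTB
  have hite : ∀ (J : Finset (Fin n)) j, (0 : ℝ) ≤ if j ∈ J then 2 * T else 0 := fun J j => by
    split_ifs <;> linarith
  intro m
  induction m with
  | zero =>
    rintro J hJ - x hb hq ⟨p, hp, -⟩
    rw [card_eq_zero.1 hJ]
    refine h.mono _ _ _ (h.zero x hb ⟨p, hM₂.trans hp⟩ ⟨q, hq⟩) ?_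
    have : 0 ≤ A * ∏ j, (|x j| + (c + if j ∈ (∅ : Finset (Fin n)) then 2 * T else 0)) :=
      mul_nonneg hA (prod_nonneg fun j _ => by have := hite ∅ j; positivity)
    rw [prod_empty]
    nlinarith
  | succ m ih =>
    rintro J hJ hqJ x hb hq ⟨p, hp, hJp⟩
    obtain ⟨i, hi, hip⟩ : ∃ i ∈ J, i ≠ p := by
      by_contra hcon
      push Not at hcon
      obtain ⟨a, ha⟩ : J.Nonempty := card_pos.1 (by omega)
      exact hJp (eq_singleton_iff_unique_mem.2 ⟨hcon a ha ▸ ha, hcon⟩)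
    have hiq : q ≠ i := fun e => hqJ (e ▸ hi)
    have hPJ : 0 ≤ ∏ j ∈ J.erase i, ((|x j| + T) / B) := prod_nonneg fun j _ => by positivity
    by_cases hxi : x i ≤ -T
    · refine h.mono _ _ _ (next x hb ⟨p, hp⟩ ⟨i, hxi⟩) (mul_le_mul_of_nonneg_left ?_ hκ)
      have e1 : 0 ≤ ∏ j ∈ J, ((|x j| + T) / B) := prod_nonneg fun j _ => by positivity
      have e2 : ∏ j, (|x j| + c) ≤ ∏ j, (|x j| + (c + if j ∈ J then 2 * T else 0)) :=
        prod_le_prod (fun j _ => by positivity) fun j _ => by linarith [hite J j]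
      nlinarith [mul_le_mul_of_nonneg_left e2 hA]
    · push Not at hxi
      have hxB : x i ≤ B := (le_abs_self _).trans (hb i)
      set θ := (x i + T) / (B + T) with hθ
      have hθe : θ * (B + T) = x i + T := by rw [hθ]; field_simp
      have h0 : 0 ≤ θ := div_nonneg (by linarith) (by linarith)
      have h1 : θ ≤ 1 := (div_le_one (by linarith)).2 (by linarith)
      have hbu : ∀ a, |a| ≤ B → ∀ j, |update x i a j| ≤ B := fun a ha j => by
        by_cases hj : j = i
        · subst hj; simpa using ha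
        · rw [update_of_ne hj]; exact hb j
      have hTa : |-T| ≤ B := by rw [abs_neg, abs_of_pos hT]; exact hTB
      have hBa : |B| ≤ B := (abs_of_pos hB).le
      have w1 := next (update x i (-T)) (hbu _ hTa) ⟨p, by rw [update_of_ne hip.symm]; exact hp⟩
        ⟨i, by simp⟩
      have w2 := ih (J.erase i) (by rw [card_erase_of_mem hi, hJ]; rfl)
        (fun e => hqJ (mem_of_mem_erase e)) (update x i B) (hbu _ hBa)
        (by rw [update_of_ne hiq]; exact hq)
        ⟨i, by simpa using hM₂B, fun e => notMem_erase i J (e ▸ mem_singleton_self i)⟩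
      have w := h.conc x i (-T) B θ _ _ hb hTa hBa ⟨p, hip.symm, hM₂.trans hp⟩ ⟨q, hiq, hq⟩ h0 h1
        (by linarith) w1 w2
      refine h.mono _ _ _ w ?_
      rw [prod_update_abs x i (-T) (fun _ => c), prod_update_abs x i B,
        ← mul_prod_erase J _ hi, ← mul_prod_erase univ _ (mem_univ i), abs_neg, abs_of_pos hT,
        abs_of_pos hB, if_pos hi, if_neg (notMem_erase i J)]
      have e0 : ∏ j ∈ J.erase i, ((|update x i B j| + T) / B) =
          ∏ j ∈ J.erase i, ((|x j| + T) / B) :=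
        prod_congr rfl fun j hj => by rw [update_of_ne (ne_of_mem_erase hj)]
      have e1 : ∏ j ∈ univ.erase i, (|x j| + (c + if j ∈ J.erase i then 2 * T else 0)) =
          ∏ j ∈ univ.erase i, (|x j| + (c + if j ∈ J then 2 * T else 0)) :=
        prod_congr rfl fun j hj => by simp [ne_of_mem_erase hj]
      have e2 : ∏ j ∈ univ.erase i, (|x j| + c) ≤
          ∏ j ∈ univ.erase i, (|x j| + (c + if j ∈ J then 2 * T else 0)) :=
        prod_le_prod (fun j _ => by positivity) fun j _ => by linarith [hite J j]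
      have e3 : 0 ≤ ∏ j ∈ univ.erase i, (|x j| + c) := prod_nonneg fun j _ => by positivity
      rw [e0, e1]
      set P := ∏ j ∈ univ.erase i, (|x j| + (c + if j ∈ J then 2 * T else 0))
      set P' := ∏ j ∈ univ.erase i, (|x j| + c)
      set S := ∏ j ∈ J.erase i, ((|x j| + T) / B)
      have f1 : θ ≤ (|x i| + T) / B := by
        rw [hθ]
        exact div_le_div₀ (by positivity) (by linarith [le_abs_self (x i)]) hB (by linarith)
      have f2 : θ * S ≤ (|x i| + T) / B * S := mul_le_mul_of_nonneg_right f1 hPJ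
      have f3 : (1 - θ) * (T + c) + θ * (B + (c + 0)) ≤ |x i| + (c + 2 * T) := by
        nlinarith [le_abs_self (x i), mul_nonneg h0 hT.le]
      have f4 : (1 - θ) * (A * ((T + c) * P')) + θ * (A * ((B + (c + 0)) * P)) ≤
          A * ((|x i| + (c + 2 * T)) * P) := by
        have g1 : (1 - θ) * (A * ((T + c) * P')) ≤ (1 - θ) * (A * ((T + c) * P)) := by
          have : 0 ≤ 1 - θ := by linarith
          gcongr
        have g2 := mul_le_mul_of_nonneg_right f3 (mul_nonneg hA (e3.trans e2))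
        nlinarith
      have f5 := mul_le_mul_of_nonneg_left (show
        1 - (|x i| + T) / B * S - A * ((|x i| + (c + 2 * T)) * P) ≤
          (1 - θ) * (1 - A * ((T + c) * P')) + θ * (1 - S - A * ((B + (c + 0)) * P)) by
            nlinarith) hκ
      nlinarith

theorem phase (hn : 3 ≤ n) {W : (Fin n → ℝ) → ℝ → Prop} {M M₂ T B κ A c : ℝ} (h : Rules W M B)
    (hM₂ : M ≤ M₂) (hM₂B : M₂ ≤ B) (hT : 0 < T) (hTB : T ≤ B) (hκ : 0 ≤ κ) (hA : 0 ≤ A)
    (hc : 0 ≤ c)
    (next : ∀ x, (∀ j, |x j| ≤ B) → (∃ p, M₂ ≤ x p) → (∃ q, x q ≤ -T) →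
      W x (κ * (1 - A * ∏ j, (|x j| + c)))) (x : Fin n → ℝ) (hb : ∀ j, |x j| ≤ B)
    (hp : ∃ p, M₂ ≤ x p) (hq : ∃ q, x q ≤ -M) :
    W x (κ * (1 - (A + 1 / (B ^ (n - 1) * T)) * ∏ j, (|x j| + (c + 2 * T)))) := by
  obtain ⟨p, hp⟩ := hp
  obtain ⟨q, hq⟩ := hq
  have hB : 0 < B := hT.trans_le hTB
  have hcard : (univ.erase q).card = n - 1 := by simp
  have w := phase_aux h hM₂ hM₂B hT hTB hκ hA hc next q _ (univ.erase q) rfl (notMem_erase q _)
    x hb hq ⟨p, hp, fun e => by rw [e, card_singleton] at hcard; omega⟩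
  refine h.mono _ _ _ w (mul_le_mul_of_nonneg_left ?_ hκ)
  have e1 : ∏ j, (|x j| + (c + if j ∈ univ.erase q then 2 * T else 0)) ≤
      ∏ j, (|x j| + (c + 2 * T)) :=
    prod_le_prod (fun j _ => by split_ifs <;> positivity) fun j _ => by split_ifs <;> linarith
  have e2 : ∏ j ∈ univ.erase q, ((|x j| + T) / B) ≤
      1 / (B ^ (n - 1) * T) * ∏ j, (|x j| + (c + 2 * T)) := by
    rw [prod_div_distrib, prod_const, hcard, ← mul_prod_erase univ _ (mem_univ q)]
    have f1 : ∏ j ∈ univ.erase q, (|x j| + T) ≤ ∏ j ∈ univ.erase q, (|x j| + (c + 2 * T)) :=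
      prod_le_prod (fun j _ => by positivity) fun j _ => by linarith
    have f2 : 0 ≤ ∏ j ∈ univ.erase q, (|x j| + T) := prod_nonneg fun j _ => by positivity
    have f3 : T ≤ |x q| + (c + 2 * T) := by linarith [abs_nonneg (x q)]
    rw [div_le_iff₀ (by positivity)]
    have f4 : T * ∏ j ∈ univ.erase q, (|x j| + T) ≤
        (|x q| + (c + 2 * T)) * ∏ j ∈ univ.erase q, (|x j| + (c + 2 * T)) :=
      mul_le_mul f3 f1 f2 (by positivity)
    have f5 : 1 / (B ^ (n - 1) * T) * ((|x q| + (c + 2 * T)) *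
        ∏ j ∈ univ.erase q, (|x j| + (c + 2 * T))) * B ^ (n - 1) =
        ((|x q| + (c + 2 * T)) * ∏ j ∈ univ.erase q, (|x j| + (c + 2 * T))) / T := by
      field_simp
    rw [f5, le_div_iff₀ hT]
    linarith
  nlinarith [mul_le_mul_of_nonneg_left e1 hA]

theorem prod_convex (J : Finset (Fin n)) (z : Fin n → ℝ) (hz : ∀ j, 0 ≤ z j) {a s : ℝ}
    (ha : 0 ≤ a) (h0 : 0 ≤ s) (h1 : s ≤ 1) :
    ∏ j ∈ J, (s * z j + a) ≤ s * ∏ j ∈ J, (z j + a) + (1 - s) * a ^ J.card := by
  induction J using Finset.induction_on with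
  | empty => simp
  | insert i J hi ih =>
    rw [prod_insert hi, prod_insert hi, card_insert_of_notMem hi, pow_succ]
    have e : a ^ J.card ≤ ∏ j ∈ J, (z j + a) := by
      rw [← prod_const]
      exact prod_le_prod (fun _ _ => ha) fun j _ => by linarith [hz j]
    have e1 := mul_le_mul_of_nonneg_left ih (show 0 ≤ s * z i + a by have := hz i; positivity)
    have e2 := mul_nonneg (mul_nonneg (mul_nonneg h0 (sub_nonneg.2 h1)) (hz i)) (sub_nonneg.2 e)
    nlinarith

/-- The value of the game with `k` stages to go. -/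
theorem stages (hn : 3 ≤ n) {W : (Fin n → ℝ) → ℝ → Prop} {L R e t : ℝ} (hR : R = 2 ^ (n + 2))
    (hL : R ≤ L) (he : e = 4 * (8 * R) ^ n / L ^ (n - 1)) (he2 : e ≤ 1 / 2)
    (rules : ∀ M, 0 < M → Rules W M (L * M))
    (one : ∀ M, t < M → 0 < M → ∀ x, (∀ j, |x j| ≤ L * M) → (∃ p, M ≤ x p) → (∃ q, x q ≤ -M) →
      W x 1) :
    ∀ (k : ℕ) (M : ℝ), 0 < M → t < R ^ k * M → ∀ x, (∀ j, |x j| ≤ L * M) → (∃ p, M ≤ x p) →
      (∃ q, x q ≤ -M) →
      W x ((1 - e) ^ k * (1 - 2 * R ^ n / (M ^ n * L ^ (n - 1)) * ∏ j, (|x j| + 4 * M))) := by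
  have hR1 : 1 ≤ R := by rw [hR]; exact one_le_pow₀ (by norm_num)
  have hR0 : 0 < R := by linarith
  have hL0 : 0 < L := by linarith
  have he0 : 0 ≤ e := by rw [he]; positivity
  intro k
  induction k with
  | zero =>
    intro M hM ht x hb hp hq
    refine (rules M hM).mono _ _ _ (one M (by simpa using ht) hM x hb hp hq) ?_
    have : 0 ≤ 2 * R ^ n / (M ^ n * L ^ (n - 1)) * ∏ j, (|x j| + 4 * M) :=
      mul_nonneg (by positivity) (prod_nonneg fun j _ => by positivity)
    simp only [pow_zero, one_mul]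
    linarith
  | succ k ih =>
    intro M hM ht x hb hp hq
    have hκ : 0 ≤ (1 - e) ^ k := pow_nonneg (by linarith) k
    have hT : 0 < R * M := by positivity
    have hMT : M ≤ R * M := by nlinarith
    have hTB : R * M ≤ L * M := by gcongr
    have hBB : L * M ≤ L * (R * M) := by gcongr
    have ih' := ih (R * M) hT (by rw [← mul_assoc, ← pow_succ]; exact ht)
    have ph2 := phase hn (rules M hM).neg hMT hTB hT hTB hκ
      (A := 2 * R ^ n / ((R * M) ^ n * L ^ (n - 1))) (c := 4 * (R * M)) (by positivity)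
      (by positivity) (fun y hy ⟨p, hp⟩ ⟨q, hq⟩ => by
        have := ih' (-y) (fun j => by simpa using (hy j).trans hBB) ⟨q, by simp; linarith⟩
          ⟨p, by simp; linarith⟩
        simpa using this)
    have ph1 := phase hn (rules M hM) le_rfl (hMT.trans hTB) hT hTB hκ
      (A := 2 * R ^ n / ((R * M) ^ n * L ^ (n - 1)) + 1 / ((L * M) ^ (n - 1) * (R * M)))
      (c := 4 * (R * M) + 2 * (R * M)) (by positivity) (by positivity)
      (fun y hy ⟨p, hp⟩ ⟨q, hq⟩ => by
        have := ph2 (-y) (fun j => by simpa using hy j) ⟨q, by simp; linarith⟩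
          ⟨p, by simp; linarith⟩
        simpa using this) x hb hp hq
    refine (rules M hM).mono _ _ _ ph1 ?_
    rw [pow_succ, mul_assoc]
    refine mul_le_mul_of_nonneg_left ?_ hκ
    set D := M ^ n * L ^ (n - 1) with hD
    have hD0 : 0 < D := by positivity
    have a1 : 2 * R ^ n / ((R * M) ^ n * L ^ (n - 1)) = 2 / D := by
      rw [hD, mul_pow]; field_simp
    have a2 : 1 / ((L * M) ^ (n - 1) * (R * M)) ≤ 1 / D := by
      refine one_div_le_one_div_of_le hD0 ?_
      have : M ^ n = M ^ (n - 1) * M := by rw [← pow_succ]; congr 1; omega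
      rw [hD, this, mul_pow]
      have : 0 ≤ L ^ (n - 1) * M ^ (n - 1) := by positivity
      nlinarith
    set P := ∏ j, (|x j| + 4 * M) with hP
    have hP0 : 0 ≤ P := prod_nonneg fun j _ => by positivity
    have a3 : ∏ j, (|x j| + (4 * (R * M) + 2 * (R * M) + 2 * (R * M))) ≤
        (2 * R) ^ n * (1 / R * P + (4 * M) ^ n) := by
      have b1 : ∏ j, (|x j| + (4 * (R * M) + 2 * (R * M) + 2 * (R * M))) ≤
          ∏ j : Fin n, (2 * R * (1 / R * |x j| + 4 * M)) :=
        prod_le_prod (fun j _ => by positivity) fun j _ => by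
          have : 2 * R * (1 / R * |x j| + 4 * M) = 2 * |x j| + 8 * (R * M) := by field_simp; ring
          rw [this]; linarith [abs_nonneg (x j)]
      rw [prod_mul_distrib, prod_const, card_univ, Fintype.card_fin] at b1
      have b2 := prod_convex univ (fun j => |x j|) (fun j => abs_nonneg _) (a := 4 * M)
        (s := 1 / R) (by positivity) (by positivity) ((div_le_one hR0).2 hR1)
      rw [card_univ, Fintype.card_fin] at b2
      have b3 : (1 - 1 / R) * (4 * M) ^ n ≤ (4 * M) ^ n := by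
        have : 0 ≤ 1 / R * (4 * M) ^ n := by positivity
        linarith
      exact b1.trans (mul_le_mul_of_nonneg_left (by linarith) (by positivity))
    have a4 : (2 * R ^ n / ((R * M) ^ n * L ^ (n - 1)) + 1 / ((L * M) ^ (n - 1) * (R * M)) +
        1 / ((L * M) ^ (n - 1) * (R * M))) *
        ∏ j, (|x j| + (4 * (R * M) + 2 * (R * M) + 2 * (R * M))) ≤
        4 / D * ((2 * R) ^ n * (1 / R * P + (4 * M) ^ n)) := by
      refine mul_le_mul ?_ a3 (prod_nonneg fun j _ => by positivity) (by positivity)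
      have : 4 / D = 2 / D + 1 / D + 1 / D := by ring
      rw [a1, this]; linarith
    have a5 : 4 / D * ((2 * R) ^ n * (1 / R * P + (4 * M) ^ n)) =
        1 / 2 * (2 * R ^ n / D * P) + e := by
      have c1 : (8 * R) ^ n = (2 * R) ^ n * 4 ^ n := by rw [← mul_pow]; congr 1; ring
      have c2 : (2 * R) ^ n = R / 4 * R ^ n := by
        rw [mul_pow]; congr 1; rw [hR, pow_add]; ring
      rw [he, hD, c1, mul_pow 4 M, c2]
      field_simp
    have hΦ : 0 ≤ 2 * R ^ n / D * P := by positivity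
    rw [a5] at a4
    nlinarith [mul_le_mul_of_nonneg_right he2 hΦ]

end Pool.Agent.H926Z.W2
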