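import Pool.Agent.H926Z.W2.Defs
import Pool.Agent.H926Z.W2.Box
import Pool.Agent.H926Z.W2.Game

/-! The examples, and the upper bound for the exponent. -/

namespace Pool.Agent.H926Z.W2

open Set Filter Topology MeasureTheory Function Metric
open scoped ENNReal RealInnerProductSpace

variable {n : ℕ}

theorem diag_eq {X : Matrix (Fin n) (Fin n) ℝ} (hX : X.IsHermitian) (a : Fin n → ℝ)
    {lam Lam : ℝ} (ha : ∀ j, lam ≤ a j ∧ a j ≤ Lam) :
    ∃ s : Fin n → ℝ, (∀ i, lam ≤ s i ∧ s i ≤ Lam) ∧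
      ∑ j, a j * X j j = ∑ i, s i * hX.eigenvalues i := by
  set U : Matrix (Fin n) (Fin n) ℝ := (hX.eigenvectorUnitary : Matrix (Fin n) (Fin n) ℝ) with hU
  have hUU : star U * U = 1 := Unitary.coe_star_mul_self hX.eigenvectorUnitary
  have h1 : ∀ i, ∑ j, U j i ^ 2 = 1 := fun i => by
    have := congrFun (congrFun hUU i) i
    simpa [Matrix.mul_apply, sq] using this
  have h2 : ∀ j, X j j = ∑ i, U j i ^ 2 * hX.eigenvalues i := fun j => by
    have := congrFun (congrFun hX.spectral_theorem j) j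
    rw [this, Unitary.conjStarAlgAut_apply, Matrix.mul_apply]
    refine Finset.sum_congr rfl fun i _ => ?_
    rw [Matrix.mul_diagonal]
    simp [hU]
    ring
  refine ⟨fun i => ∑ j, a j * U j i ^ 2, fun i => ⟨?_, ?_⟩, ?_⟩
  · calc lam = ∑ j, lam * U j i ^ 2 := by rw [← Finset.mul_sum, h1, mul_one]
      _ ≤ _ := Finset.sum_le_sum fun j _ => mul_le_mul_of_nonneg_right (ha j).1 (sq_nonneg _)
  · calc _ ≤ ∑ j, Lam * U j i ^ 2 :=
          Finset.sum_le_sum fun j _ => mul_le_mul_of_nonneg_right (ha j).2 (sq_nonneg _)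
      _ = Lam := by rw [← Finset.mul_sum, h1, mul_one]
  · simp only [h2, Finset.mul_sum, Finset.sum_mul]
    rw [Finset.sum_comm]
    exact Finset.sum_congr rfl fun i _ => Finset.sum_congr rfl fun j _ => by ring

theorem pucciMinus_le {X : Matrix (Fin n) (Fin n) ℝ} (hX : X.IsHermitian) (a : Fin n → ℝ)
    {lam Lam : ℝ} (ha : ∀ j, lam ≤ a j ∧ a j ≤ Lam) :
    pucciMinus lam Lam hX ≤ ∑ j, a j * X j j := by
  obtain ⟨s, hs, e⟩ := diag_eq hX a ha
  rw [e, pucciMinus, Finset.mul_sum, Finset.mul_sum, Finset.sum_filter, Finset.sum_filter,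
    ← Finset.sum_add_distrib]
  refine Finset.sum_le_sum fun i _ => ?_
  rcases lt_trichotomy (hX.eigenvalues i) 0 with h | h | h
  · rw [if_neg (by linarith), if_pos h]; nlinarith [(hs i).2]
  · simp [h]
  · rw [if_pos h, if_neg (by linarith)]; nlinarith [(hs i).1]

theorem le_pucciPlus {X : Matrix (Fin n) (Fin n) ℝ} (hX : X.IsHermitian) (a : Fin n → ℝ)
    {lam Lam : ℝ} (ha : ∀ j, lam ≤ a j ∧ a j ≤ Lam) :
    ∑ j, a j * X j j ≤ pucciPlus lam Lam hX := by
  obtain ⟨s, hs, e⟩ := diag_eq hX a ha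
  rw [e, pucciPlus, Finset.mul_sum, Finset.mul_sum, Finset.sum_filter, Finset.sum_filter,
    ← Finset.sum_add_distrib]
  refine Finset.sum_le_sum fun i _ => ?_
  rcases lt_trichotomy (hX.eigenvalues i) 0 with h | h | h
  · rw [if_neg (by linarith), if_pos h]; nlinarith [(hs i).1]
  · simp [h]
  · rw [if_pos h, if_neg (by linarith)]; nlinarith [(hs i).2]

/-- The `j`-th coordinate line through `x`. -/
noncomputable def line (x : E n) (j : Fin n) (s : ℝ) : E n :=
  x + (s - x j) • EuclideanSpace.single j (1 : ℝ)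

theorem line_self (x : E n) (j : Fin n) : line x j (x j) = x := by simp [line]

theorem ofLp_line (x : E n) (j : Fin n) (s : ℝ) : (line x j s).ofLp = update x.ofLp j s := by
  funext k
  by_cases hk : k = j
  · subst hk; simp [line]
  · simp [line, update_of_ne hk, hk]

theorem hasDerivAt_line (x : E n) (j : Fin n) (s : ℝ) :
    HasDerivAt (line x j) (EuclideanSpace.single j (1 : ℝ)) s := by
  have := (((hasDerivAt_id s).sub_const (x j)).smul_const
    (EuclideanSpace.single j (1 : ℝ))).const_add x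
  rw [one_smul] at this
  exact this

theorem tendsto_line (x : E n) (j : Fin n) : Tendsto (line x j) (𝓝 (x j)) (𝓝 x) := by
  have := (hasDerivAt_line x j (x j)).continuousAt.tendsto
  rwa [line_self] at this

theorem test_line {φ : E n → ℝ} {x : E n} (hφ : ContDiffAt ℝ 2 φ x) (j : Fin n) :
    ∃ g : ℝ → ℝ, (∀ᶠ s in 𝓝 (x j), HasDerivAt (fun s => φ (line x j s)) (g s) s) ∧
      HasDerivAt g (hess φ x j j) (x j) := by
  refine ⟨fun s => fderiv ℝ φ (line x j s) (EuclideanSpace.single j (1 : ℝ)), ?_, ?_⟩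
  · have h1 : ∀ᶠ y in 𝓝 x, ContDiffAt ℝ 2 φ y := hφ.eventually (by simp)
    filter_upwards [(tendsto_line x j).eventually h1] with s hs
    exact (hs.differentiableAt (by norm_num)).hasFDerivAt.comp_hasDerivAt s (hasDerivAt_line x j s)
  · have h1 : DifferentiableAt ℝ (fderiv ℝ φ) x :=
      (hφ.fderiv_right (m := 1) (by norm_num)).differentiableAt (by norm_num)
    have h2 : HasFDerivAt (fderiv ℝ φ) (fderiv ℝ (fderiv ℝ φ) x) (line x j (x j)) := by
      rw [line_self]; exact h1.hasFDerivAt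
    have h3 := h2.comp_hasDerivAt (x j) (hasDerivAt_line x j (x j))
    have h4 := h3.clm_apply (hasDerivAt_const (x j) (EuclideanSpace.single j (1 : ℝ)))
    simpa [hess] using h4

theorem le_of_min {U : (Fin n → ℝ) → ℝ} {z : (Fin n → ℝ) → Fin n → ℝ} (hU : Has2 U z)
    {φ : E n → ℝ} {x : E n} {j : Fin n} {g : ℝ → ℝ} {e : ℝ}
    (hg : ∀ᶠ s in 𝓝 (x j), HasDerivAt (fun s => φ (line x j s)) (g s) s)
    (hg' : HasDerivAt g e (x j)) (hmin : IsLocalMin (fun y => U y.ofLp - φ y) x) :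
    e ≤ z x.ofLp j := by
  obtain ⟨k, hk, hk'⟩ := hU.2 x.ofLp j
  have h1 : IsLocalMin (fun s => U (update x.ofLp j s) - φ (line x j s)) (x j) := by
    have := IsLocalMin.comp_continuous (g := line x j) (b := x j) (by rwa [line_self])
      (hasDerivAt_line x j (x j)).continuousAt
    simpa [comp_def, ofLp_line] using this
  have := nonneg_of_isLocalMin (g := fun s => k s - g s) (e := z x.ofLp j - e)
    (by filter_upwards [hg] with s hs using (hk s).sub hs) (hk'.sub hg'.hasDerivWithinAt) h1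
  linarith

theorem Has2.neg {U : (Fin n → ℝ) → ℝ} {z : (Fin n → ℝ) → Fin n → ℝ} (hU : Has2 U z) :
    Has2 (-U) (-z) := by
  refine ⟨hU.1.neg, fun y j => ?_⟩
  obtain ⟨k, hk, hk'⟩ := hU.2 y j
  exact ⟨fun s => -k s, fun s => (hk s).neg, hk'.neg⟩

theorem le_of_max {U : (Fin n → ℝ) → ℝ} {z : (Fin n → ℝ) → Fin n → ℝ} (hU : Has2 U z)
    {φ : E n → ℝ} {x : E n} {j : Fin n} {g : ℝ → ℝ} {e : ℝ}
    (hg : ∀ᶠ s in 𝓝 (x j), HasDerivAt (fun s => φ (line x j s)) (g s) s)
    (hg' : HasDerivAt g e (x j)) (hmax : IsLocalMax (fun y => U y.ofLp - φ y) x) :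
    z x.ofLp j ≤ e := by
  have := le_of_min hU.neg (φ := fun y => -φ y) (g := fun s => -g s) (e := -e)
    (by filter_upwards [hg] with s hs using hs.neg) hg'.neg (by
      have := hmax.neg
      refine this.congr (Eventually.of_forall fun y => ?_)
      simp only [Pi.neg_apply]; ring)
  simp only [Pi.neg_apply] at this
  linarith

/-- Admissible vectors of diagonal second derivatives. -/
def Adm (N : ℝ) (z : Fin n → ℝ) : Prop :=
  ∃ m, 0 ≤ m ∧ (∀ j, |z j| ≤ N * m) ∧ (∃ p, m ≤ z p) ∧ ∃ q, z q ≤ -m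

theorem weights {lam Lam N m : ℝ} (hlam : 0 < lam) (hl : lam ≤ Lam) (hN : n * N * lam ≤ Lam)
    (hm : 0 ≤ m) {z : Fin n → ℝ} (hz : ∀ j, z j ≤ N * m) (hN0 : 0 ≤ N * m) {q : Fin n}
    (hq : z q ≤ -m) : ∑ j, (if j = q then Lam else lam) * z j ≤ 0 := by
  rw [← Finset.add_sum_erase _ _ (Finset.mem_univ q), if_pos rfl]
  have h1 : ∑ j ∈ Finset.univ.erase q, (if j = q then Lam else lam) * z j ≤
      ∑ j ∈ Finset.univ.erase q, lam * (N * m) :=
    Finset.sum_le_sum fun j hj => by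
      rw [if_neg (Finset.ne_of_mem_erase hj)]
      exact mul_le_mul_of_nonneg_left (hz j) hlam.le
  have h2 : ∑ j ∈ Finset.univ.erase q, lam * (N * m) ≤ ∑ _j : Fin n, lam * (N * m) :=
    Finset.sum_le_sum_of_subset_of_nonneg (Finset.subset_univ _) fun _ _ _ => by positivity
  have h3 : ∑ _j : Fin n, lam * (N * m) = n * (lam * (N * m)) := by simp
  nlinarith [mul_le_mul_of_nonneg_right hN hm, mul_le_mul_of_nonneg_left hq (hlam.le.trans hl)]

theorem inS_of_adm {U : (Fin n → ℝ) → ℝ} {z : (Fin n → ℝ) → Fin n → ℝ} (hU : Has2 U z)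
    {lam Lam N : ℝ} (hlam : 0 < lam) (hl : lam ≤ Lam) (hN : n * N * lam ≤ Lam)
    (hz : ∀ y, Adm N (z y)) : InS lam Lam (fun y : E n => U y.ofLp) := by
  refine ⟨(hU.1.comp (PiLp.continuous_ofLp 2 _)).continuousOn, fun x _ φ hφ hmin => ?_,
    fun x _ φ hφ hmax => ?_⟩
  · obtain ⟨m, hm, hb, -, q, hq⟩ := hz x.ofLp
    have ha : ∀ j, lam ≤ (if j = q then Lam else lam) ∧ (if j = q then Lam else lam) ≤ Lam :=
      fun j => by split_ifs <;> simp [hl]
    refine (pucciMinus_le _ _ ha).trans (le_trans (Finset.sum_le_sum fun j _ => ?_)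
      (weights hlam hl hN hm (fun j => (le_abs_self _).trans (hb j))
        ((abs_nonneg _).trans (hb q)) hq))
    obtain ⟨g, hg, hg'⟩ := test_line hφ j
    exact mul_le_mul_of_nonneg_left (le_of_min hU hg hg' hmin) (hlam.le.trans (ha j).1)
  · obtain ⟨m, hm, hb, ⟨q, hq⟩, -⟩ := hz x.ofLp
    have ha : ∀ j, lam ≤ (if j = q then Lam else lam) ∧ (if j = q then Lam else lam) ≤ Lam :=
      fun j => by split_ifs <;> simp [hl]
    refine le_trans ?_ (le_pucciPlus _ _ ha)
    have h1 := weights hlam hl hN hm (z := -z x.ofLp) (fun j => (neg_le_abs _).trans (hb j))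
        ((abs_nonneg _).trans (hb q)) (q := q) (by simpa using hq)
    simp only [Pi.neg_apply, mul_neg, Finset.sum_neg_distrib, Left.neg_nonpos_iff] at h1
    refine h1.trans (Finset.sum_le_sum fun j _ => ?_)
    obtain ⟨g, hg, hg'⟩ := test_line hφ j
    exact mul_le_mul_of_nonneg_left (le_of_max hU hg hg' hmax) (hlam.le.trans (ha j).1)

theorem le_theta {U : (Fin n → ℝ) → ℝ} {z : (Fin n → ℝ) → Fin n → ℝ} (hU : Has2 U z)
    {x : E n} (hx : x ∈ ball (0 : E n) 1) (j : Fin n) :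
    ENNReal.ofReal (-z x.ofLp j) ≤ Theta (fun y : E n => U y.ofLp) x := by
  refine le_iInf fun M => le_iInf fun hM => ENNReal.ofReal_le_ofReal ?_
  obtain ⟨-, -, c, l, hc, hc'⟩ := hM
  have hmin : IsLocalMin (fun y : E n => U y.ofLp - (c + ⟪l, y⟫ - M / 2 * ‖y‖ ^ 2)) x := by
    filter_upwards [isOpen_ball.mem_nhds hx] with y hy
    have := hc y hy
    simp only at hc' this ⊢
    linarith
  have hd : ∀ s, HasDerivAt (fun s => c + ⟪l, line x j s⟫ - M / 2 * ‖line x j s‖ ^ 2)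
      (l j - M * s) s := fun s => by
    have h1 := (hasDerivAt_const s l).inner ℝ (hasDerivAt_line x j s)
    have h2 := (hasDerivAt_line x j s).norm_sq
    have h3 := (h1.const_add c).sub (h2.const_mul (M / 2))
    have h4 : (line x j s).ofLp j = s := by rw [ofLp_line]; simp
    refine h3.congr_deriv ?_
    simp [EuclideanSpace.inner_single_right, h4]
    ring
  have hd' : HasDerivAt (fun s => l j - M * s) (-M) (x j) := by
    simpa using ((hasDerivAt_id (x j)).const_mul M).const_sub (l j)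
  have := le_of_min hU (φ := fun y => c + ⟪l, y⟫ - M / 2 * ‖y‖ ^ 2) (Eventually.of_forall hd) hd'
    hmin
  linarith

theorem has2_quad (x : Fin n → ℝ) : Has2 (fun y => ∑ j, x j * y j ^ 2 / 2) (fun _ => x) := by
  refine ⟨by fun_prop, fun y j => ⟨fun s => x j * s, fun s => ?_, ?_⟩⟩
  · have : (fun s => ∑ k, x k * update y j s k ^ 2 / 2) =
        fun s => x j * s ^ 2 / 2 + ∑ k ∈ Finset.univ.erase j, x k * y k ^ 2 / 2 := by
      funext s
      rw [← Finset.add_sum_erase _ _ (Finset.mem_univ j), update_self]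
      congr 1
      exact Finset.sum_congr rfl fun k hk => by rw [update_of_ne (Finset.ne_of_mem_erase hk)]
    rw [this]
    have h := ((((hasDerivAt_pow 2 s).const_mul (x j))).div_const 2).add_const
      (∑ k ∈ Finset.univ.erase j, x k * y k ^ 2 / 2)
    refine h.congr_deriv ?_
    simp; ring
  · simpa using ((hasDerivAt_id (y j)).const_mul (x j)).hasDerivWithinAt

theorem adm_of {L M : ℝ} (hL : 1 ≤ L) (hM : 0 < M) {x : Fin n → ℝ} (hb : ∀ j, |x j| ≤ L * M)
    (hp : ∃ p, M ≤ x p) (hq : ∃ q, x q ≤ -M) : Adm (4 * L) x :=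
  ⟨M, hM.le, fun j => (hb j).trans (by nlinarith), hp, hq⟩

theorem rules_good {L M : ℝ} (hL : 1 ≤ L) (hM : 0 < M) (Tgt : (Fin n → ℝ) → Prop) :
    Rules (Good (Adm (4 * L)) Tgt) M (L * M) := by
  refine ⟨fun x p p' h hp => h.mono hp, fun x hb hp hq => good_zero (adm_of hL hM hb hp hq), ?_⟩
  rintro x i a b θ p₁ p₂ hb ha hb' ⟨p, hp, hp'⟩ ⟨q, hq, hq'⟩ h0 h1 hx w1 w2
  have e1 : x i - θ * (b - a) = a := by rw [hx]; ring
  have e2 : x i + (1 - θ) * (b - a) = b := by rw [hx]; ring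
  refine good_split (i := i) (h := b - a) h0 h1 (half_pos hM) (fun z hz hzi => ?_)
    (by rwa [e1]) (by rwa [e2])
  rw [e1, e2] at hzi
  have hLM : M ≤ L * M := by nlinarith
  refine ⟨M / 2, by linarith, fun j => ?_, ⟨p, by linarith [abs_le.1 (hz p hp)]⟩,
    ⟨q, by linarith [abs_le.1 (hz q hq)]⟩⟩
  by_cases hj : j = i
  · subst hj
    rw [abs_le] at ha hb' ⊢
    rcases mem_uIcc.1 hzi with h | h <;> constructor <;> linarith [h.1, h.2]
  · have := abs_le.1 (hz j hj)
    have := abs_le.1 (hb j)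
    rw [abs_le]; constructor <;> linarith

/-- The examples. -/
theorem example_bound {lam Lam N t P : ℝ} (hn : 0 < n) (hlam : 0 < lam) (hl : lam ≤ Lam)
    (hN : n * N * lam ≤ Lam) (ht : 0 < t) {x : Fin n → ℝ} (hx : Adm N x) (hx1 : ∀ j, |x j| ≤ 1)
    (hg : Good (Adm N) (fun z => ∃ j, z j < -t) x P) {p : ℝ} (hp : p < P) :
    ∃ u : E n → ℝ, InS lam Lam u ∧ (∀ y ∈ ball (0 : E n) 1, |u y| ≤ 1) ∧
      ENNReal.ofReal (p * (1 / (2 * n)) ^ n) ≤
        volume {x | x ∈ ball (0 : E n) (1 / 2) ∧ ENNReal.ofReal t < Theta u x} := by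
  have hn' : (1 : ℝ) ≤ n := by exact_mod_cast hn
  have hr : (0 : ℝ) < 1 / (4 * n) := by positivity
  obtain ⟨w, d, G, hw, hG⟩ := hg p hp (fun _ => -(1 / (4 * n))) (fun _ => 1 / (4 * n))
    (fun _ => by linarith) (1 / 2) (by norm_num)
  have hU := (has2_quad x).add hw.has
  have hadm : ∀ y, Adm N (((fun _ : Fin n → ℝ => x) + d) y) := fun y => by
    by_cases hy : y ∈ box (fun _ => -(1 / (4 * n) : ℝ)) (fun _ : Fin n => 1 / (4 * n))
    · exact hw.adm y hy
    · simpa [(hw.zero y hy).2] using hx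
  refine ⟨_, inS_of_adm hU hlam hl hN hadm, fun y hy => ?_, ?_⟩
  · have h1 : ∑ j, y j ^ 2 ≤ 1 := by
      rw [← EuclideanSpace.real_norm_sq_eq]
      have := mem_ball_zero_iff.1 hy
      nlinarith [norm_nonneg y]
    have h2 : |∑ j, x j * y j ^ 2 / 2| ≤ ∑ j, y j ^ 2 / 2 :=
      (Finset.abs_sum_le_sum_abs _ _).trans (Finset.sum_le_sum fun j _ => by
        rw [abs_div, abs_mul, abs_of_nonneg (sq_nonneg (y j)), abs_two]
        have := mul_le_mul_of_nonneg_right (hx1 j) (sq_nonneg (y j))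
        linarith)
    have h4 : ∑ j, y j ^ 2 / 2 = (∑ j, y j ^ 2) / 2 := by rw [Finset.sum_div]
    have h3 := hw.small y.ofLp
    rw [Pi.add_apply]
    linarith [abs_add_le (∑ j, x j * y j ^ 2 / 2) (w y.ofLp)]
  · have e : ∏ _k : Fin n, (1 / (4 * n) - -(1 / (4 * n)) : ℝ) = (1 / (2 * n)) ^ n := by
      rw [Finset.prod_const, Finset.card_univ, Fintype.card_fin]
      congr 1; field_simp; ring
    rw [e] at hG
    refine hG.trans ?_
    rw [← (PiLp.volume_preserving_ofLp (Fin n)).measure_preimage hw.meas.nullMeasurableSet]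
    refine measure_mono fun y hy => ?_
    have hyb := mem_box.1 (hw.sub hy)
    have hy2 : ‖y‖ < 1 / 2 := by
      have h1 : ‖y‖ ^ 2 ≤ ∑ _j : Fin n, (1 / (4 * n) : ℝ) ^ 2 := by
        rw [EuclideanSpace.real_norm_sq_eq]
        exact Finset.sum_le_sum fun j _ => sq_le_sq' (hyb j).1 (hyb j).2.le
      rw [Finset.sum_const, Finset.card_univ, Fintype.card_fin, nsmul_eq_mul] at h1
      have h2 : (n : ℝ) * (1 / (4 * n)) ^ 2 = 1 / (16 * n) := by field_simp; ring
      have h3 : (1 : ℝ) / (16 * n) ≤ 1 / 16 := one_div_le_one_div_of_le (by norm_num) (by linarith)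
      nlinarith [norm_nonneg y]
    refine ⟨mem_ball_zero_iff.2 hy2, ?_⟩
    obtain ⟨j, hj⟩ := hw.tgt _ hy
    refine lt_of_lt_of_le ?_ (le_theta hU (mem_ball_zero_iff.2 (by linarith)) j)
    simp only [Pi.add_apply] at hj ⊢
    exact (ENNReal.ofReal_lt_ofReal_iff (by linarith)).2 (by linarith)

theorem main (n : ℕ) (hn : 3 ≤ n) : ∃ C K₀ : ℝ, ∀ lam Lam : ℝ, 0 < lam → lam ≤ Lam →
    K₀ ≤ Lam / lam → epsStar n lam Lam ≤ ENNReal.ofReal (C * (Lam / lam) ^ (1 - (n : ℝ))) := by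
  set R : ℝ := 2 ^ (n + 2) with hR
  have hR4 : 4 ≤ R := by
    rw [hR, pow_add]; have : (1 : ℝ) ≤ 2 ^ n := one_le_pow₀ (by norm_num)
    linarith
  have hn' : (3 : ℝ) ≤ n := by exact_mod_cast hn
  have h8 : 8 * R ≤ (8 * R) ^ n := le_self_pow₀ (by linarith) (by omega)
  refine ⟨8 * (8 * R) ^ n * (4 * n) ^ (n - 1), 4 * n * (8 * (8 * R) ^ n),
    fun lam Lam hlam hl hK => iSup_le fun ε => iSup_le fun hε => ENNReal.ofReal_le_ofReal ?_⟩
  obtain ⟨hε0, C, hC⟩ := hε
  set K := Lam / lam with hKdef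
  set L := K / (4 * n) with hLdef
  have hL : 8 * (8 * R) ^ n ≤ L := by rw [hLdef, le_div_iff₀ (by linarith)]; linarith
  have hRL : R ≤ L := by linarith
  have hL1 : 1 ≤ L := by linarith
  have hLn : L ≤ L ^ (n - 1) := le_self_pow₀ hL1 (by omega)
  set e := 4 * (8 * R) ^ n / L ^ (n - 1) with he
  have he0 : 0 < e := by rw [he]; positivity
  have he2 : e ≤ 1 / 2 := by rw [he, div_le_iff₀ (by positivity)]; linarith
  have hN : n * (4 * L) * lam ≤ Lam := by
    rw [hLdef, hKdef]; field_simp; rfl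
  let x : Fin n → ℝ := fun j => if j = ⟨0, by omega⟩ then 1 else -1
  have hx1 : ∀ j, |x j| = 1 := fun j => by simp only [x]; split_ifs <;> simp
  have hxp : ∃ p, (1 : ℝ) ≤ x p := ⟨⟨0, by omega⟩, by simp [x]⟩
  have hxq : ∃ q, x q ≤ -1 := ⟨⟨1, by omega⟩, by simp [x]⟩
  have hxb : ∀ j, |x j| ≤ L * 1 := fun j => by rw [hx1]; linarith
  have hk : ∀ k : ℕ, (1 - e) ^ k / 2 * (1 / (2 * n)) ^ n ≤ |C| * (R ^ k / 2) ^ (-ε) := by
    intro k
    have ht : 0 < R ^ k / 2 := by positivity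
    have w := stages hn (t := R ^ k / 2) (W := Good (Adm (4 * L)) fun z => ∃ j, z j < -(R ^ k / 2)) hR hRL he he2
      (fun M hM => rules_good hL1 hM _)
      (fun M hM hM0 y hb hp hq => good_one (adm_of hL1 hM0 hb hp hq)
        (by obtain ⟨q, hq⟩ := hq; exact ⟨q, by linarith⟩)) k 1 one_pos 
      (by rw [mul_one]; show R ^ k / 2 < R ^ k; linarith) x hxb
      hxp hxq
    have hΦ : 2 * R ^ n / (1 ^ n * L ^ (n - 1)) * ∏ j, (|x j| + 4 * 1) ≤ e / 2 := by
      simp only [hx1, Finset.prod_const, Finset.card_univ, Fintype.card_fin, one_pow, one_mul]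
      rw [he, mul_pow]
      have : ((1 : ℝ) + 4 * 1) ^ n ≤ 8 ^ n := pow_le_pow_left₀ (by norm_num) (by norm_num) n
      have h2 : 4 * (8 ^ n * R ^ n) / L ^ (n - 1) / 2 = 2 * R ^ n / L ^ (n - 1) * 8 ^ n := by ring
      rw [h2]
      exact mul_le_mul_of_nonneg_left this (by positivity)
    have hρ : 0 < (1 - e) ^ k := pow_pos (by linarith) k
    obtain ⟨u, hu, hu1, hv⟩ := example_bound (by omega) hlam hl hN ht
      (adm_of hL1 one_pos hxb hxp hxq) (fun j => (hx1 j).le) w (p := (1 - e) ^ k / 2)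
      (by nlinarith)
    have h1 := hv.trans (hC u hu hu1 _ ht)
    have h2 : 0 ≤ (R ^ k / 2) ^ (-ε) := by positivity
    have h3 := h1.trans (ENNReal.ofReal_le_ofReal (mul_le_mul_of_nonneg_right (le_abs_self C) h2))
    exact (ENNReal.ofReal_le_ofReal_iff (by positivity)).1 h3
  have hγ : (1 - e) * R ^ ε ≤ 1 := by
    by_contra hcon
    push Not at hcon
    have hc : (0 : ℝ) < 1 / 2 * (1 / (2 * n)) ^ n := by positivity
    obtain ⟨k, hk'⟩ := ((tendsto_pow_atTop_atTop_of_one_lt hcon).eventually_gt_atTop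
      (|C| * 2 ^ ε / (1 / 2 * (1 / (2 * n)) ^ n))).exists
    have h1 := hk k
    have h2 : (R ^ k / 2) ^ (-ε) = 2 ^ ε / (R ^ ε) ^ k := by
      rw [Real.rpow_neg (by positivity), Real.div_rpow (by positivity) (by norm_num), inv_div,
        ← Real.rpow_natCast, ← Real.rpow_natCast, ← Real.rpow_mul (by linarith),
        ← Real.rpow_mul (by linarith), mul_comm]
    have h3 : 0 < (R ^ ε) ^ k := by positivity
    rw [h2, ← mul_div_assoc, le_div_iff₀ h3] at h1
    rw [div_lt_iff₀ hc, mul_pow] at hk'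
    linarith
  have hexp : ε + 1 ≤ R ^ ε := by
    refine (Real.add_one_le_exp ε).trans ?_
    rw [← Real.exp_one_rpow]
    exact Real.rpow_le_rpow (Real.exp_pos 1).le (by linarith [Real.exp_one_lt_d9]) hε0.le
  have hε2 : ε ≤ 2 * e := by nlinarith
  have hK0 : 0 < K := div_pos (hlam.trans_le hl) hlam
  have hpow : K ^ (1 - (n : ℝ)) = 1 / K ^ (n - 1) := by
    rw [one_div, ← Real.rpow_natCast, ← Real.rpow_neg hK0.le, Nat.cast_sub (by omega)]
    congr 1; push_cast; ring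
  refine hε2.trans (le_of_eq ?_)
  rw [hpow, he, hLdef, div_pow]
  field_simp
  ring

end Pool.Agent.H926Z.W2
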