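import Mathlib

/-! One-dimensional building blocks: functions whose derivative has a right derivative. -/

namespace Pool.Agent.H926Z.W2

open Set Filter Topology

/-- `f` is differentiable and its derivative has right derivative `f2`. -/
def Has1 (f f2 : ℝ → ℝ) : Prop :=
  ∃ g : ℝ → ℝ, (∀ s, HasDerivAt f (g s) s) ∧ ∀ s, HasDerivWithinAt g (f2 s) (Ici s) s

theorem Has1.continuous {f f2 : ℝ → ℝ} (h : Has1 f f2) : Continuous f := by
  obtain ⟨g, hg, -⟩ := h
  exact continuous_iff_continuousAt.2 fun s => (hg s).continuousAt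

theorem Has1.add {f f2 g g2 : ℝ → ℝ} (hf : Has1 f f2) (hg : Has1 g g2) :
    Has1 (fun s => f s + g s) (fun s => f2 s + g2 s) := by
  obtain ⟨a, ha, ha'⟩ := hf
  obtain ⟨b, hb, hb'⟩ := hg
  exact ⟨fun s => a s + b s, fun s => (ha s).add (hb s), fun s => (ha' s).add (hb' s)⟩

theorem Has1.smul {f f2 : ℝ → ℝ} (c : ℝ) (hf : Has1 f f2) :
    Has1 (fun s => c * f s) (fun s => c * f2 s) := by
  obtain ⟨a, ha, ha'⟩ := hf
  exact ⟨fun s => c * a s, fun s => (ha s).const_mul c, fun s => (ha' s).const_mul c⟩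

theorem Has1.shift {f f2 : ℝ → ℝ} (c : ℝ) (hf : Has1 f f2) :
    Has1 (fun s => f (s - c)) (fun s => f2 (s - c)) := by
  obtain ⟨a, ha, ha'⟩ := hf
  refine ⟨fun s => a (s - c), fun s => (ha (s - c)).comp_sub_const s c, fun s => ?_⟩
  have h1 : HasDerivWithinAt (fun s : ℝ => s - c) 1 (Ici s) s :=
    ((hasDerivAt_id s).sub_const c).hasDerivWithinAt
  have := (ha' (s - c)).comp s h1 (fun y hy => by simpa using hy)
  simpa [Function.comp_def] using this

/-- `q s = (s⁺)² / 2`. -/
noncomputable def q (s : ℝ) : ℝ := (max s 0) ^ 2 / 2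

theorem q_nonpos {s : ℝ} (h : s ≤ 0) : q s = 0 := by simp [q, max_eq_right h]

theorem q_nonneg' {s : ℝ} (h : 0 ≤ s) : q s = s ^ 2 / 2 := by simp [q, max_eq_left h]

theorem q_bound {s δ : ℝ} (hδ : 0 ≤ δ) (h : s ≤ δ) : |q s| ≤ δ ^ 2 := by
  have h1 : 0 ≤ max s 0 := le_max_right _ _
  have h2 : max s 0 ≤ δ := max_le h hδ
  have h3 : (max s 0) ^ 2 ≤ δ ^ 2 := by gcongr
  rw [abs_of_nonneg (by unfold q; positivity)]
  unfold q
  nlinarith [sq_nonneg δ]

theorem has1_q : Has1 q (fun s => if 0 ≤ s then 1 else 0) := by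
  refine ⟨fun s => max s 0, fun s => ?_, fun s => ?_⟩
  · show HasDerivAt q (max s 0) s
    rcases lt_trichotomy s 0 with h | h | h
    · have : q =ᶠ[𝓝 s] fun _ => 0 := by
        filter_upwards [Iio_mem_nhds h] with y hy using q_nonpos (le_of_lt hy)
      rw [max_eq_right h.le]
      exact (hasDerivAt_const s (0 : ℝ)).congr_of_eventuallyEq this
    · subst h
      rw [max_self, hasDerivAt_iff_isLittleO_nhds_zero]
      simp only [zero_add, q_nonpos (le_refl (0 : ℝ)), sub_zero, smul_zero]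
      have h2 : (fun h : ℝ => h ^ 2) =o[𝓝 0] fun h : ℝ => h :=
        Asymptotics.isLittleO_pow_id (by norm_num)
      refine Asymptotics.IsBigO.trans_isLittleO ?_ h2
      refine Asymptotics.IsBigO.of_bound 1 (Eventually.of_forall fun y => ?_)
      have := q_bound (abs_nonneg y) (le_abs_self y)
      simpa using this
    · have : q =ᶠ[𝓝 s] fun y => y ^ 2 / 2 := by
        filter_upwards [Ioi_mem_nhds h] with y hy using q_nonneg' (le_of_lt hy)
      rw [max_eq_left h.le]
      have h2 : HasDerivAt (fun y : ℝ => y ^ 2 / 2) s s := by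
        simpa using (hasDerivAt_pow 2 s).div_const 2
      exact h2.congr_of_eventuallyEq this
  · by_cases h : 0 ≤ s
    · simp only [h, if_true]
      refine (hasDerivWithinAt_id s (Ici s)).congr (fun y hy => ?_) ?_
      · exact max_eq_left (h.trans hy)
      · exact max_eq_left h
    · simp only [h, if_false]
      push Not at h
      have : (fun y : ℝ => max y 0) =ᶠ[𝓝 s] fun _ => 0 := by
        filter_upwards [Iio_mem_nhds h] with y hy using max_eq_right (le_of_lt hy)
      exact ((hasDerivAt_const s (0 : ℝ)).congr_of_eventuallyEq this).hasDerivWithinAt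

/-- One oscillation on `[c, c+δ)`: second derivative `(1-θ) h` on the two outer pieces of length
`θ δ / 2`, and `-θ h` on the middle piece. -/
theorem exists_osc (c δ θ h : ℝ) (hδ : 0 < δ) (h0 : 0 ≤ θ) (h1 : θ ≤ 1) :
    ∃ f f2 : ℝ → ℝ, Has1 f f2 ∧ (∀ s, s ∉ Ico c (c + δ) → f s = 0 ∧ f2 s = 0) ∧
      (∀ s, |f s| ≤ 4 * |h| * δ ^ 2) ∧
      (∀ s ∈ Ico c (c + θ * δ / 2), f2 s = (1 - θ) * h) ∧
      (∀ s ∈ Ico (c + θ * δ / 2) (c + δ - θ * δ / 2), f2 s = -θ * h) ∧
      (∀ s ∈ Ico (c + δ - θ * δ / 2) (c + δ), f2 s = (1 - θ) * h) := by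
  have hθδ : 0 ≤ θ * δ := mul_nonneg h0 hδ.le
  have hθδ' : θ * δ ≤ δ := by nlinarith
  have H := ((((has1_q.shift c).smul ((1 - θ) * h)).add
    ((has1_q.shift (c + θ * δ / 2)).smul (-h))).add
    ((has1_q.shift (c + δ - θ * δ / 2)).smul h)).add ((has1_q.shift (c + δ)).smul (-((1 - θ) * h)))
  have hzero : ∀ s, s ∉ Ico c (c + δ) →
      (1 - θ) * h * q (s - c) + -h * q (s - (c + θ * δ / 2)) + h * q (s - (c + δ - θ * δ / 2)) +
        -((1 - θ) * h) * q (s - (c + δ)) = 0 := by
    intro s hs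
    rw [mem_Ico, not_and_or, not_le, not_lt] at hs
    rcases hs with hs | hs
    · rw [q_nonpos (by linarith), q_nonpos (by linarith), q_nonpos (by linarith),
        q_nonpos (by linarith)]
      ring
    · rw [q_nonneg' (by linarith), q_nonneg' (by linarith), q_nonneg' (by linarith),
        q_nonneg' (by linarith)]
      ring
  refine ⟨_, _, H, fun s hs => ⟨hzero s hs, ?_⟩, fun s => ?_, fun s hs => ?_, fun s hs => ?_,
    fun s hs => ?_⟩
  · rw [mem_Ico, not_and_or, not_le, not_lt] at hs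
    rcases hs with hs | hs
    · rw [if_neg (by linarith), if_neg (by linarith), if_neg (by linarith), if_neg (by linarith)]
      ring
    · rw [if_pos (by linarith), if_pos (by linarith), if_pos (by linarith), if_pos (by linarith)]
      ring
  · by_cases hs : s ∈ Ico c (c + δ)
    · obtain ⟨hs1, hs2⟩ := hs
      have b1 := q_bound (s := s - c) hδ.le (by linarith)
      have b2 := q_bound (s := s - (c + θ * δ / 2)) hδ.le (by linarith)
      have b3 := q_bound (s := s - (c + δ - θ * δ / 2)) hδ.le (by linarith)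
      have b4 := q_bound (s := s - (c + δ)) hδ.le (by linarith)
      have hθ : |1 - θ| ≤ 1 := by rw [abs_of_nonneg (by linarith)]; linarith
      have e : ∀ a x : ℝ, |a| ≤ |h| → |x| ≤ δ ^ 2 → |a * x| ≤ |h| * δ ^ 2 := fun a x ha hx => by
        rw [abs_mul]; gcongr
      have hh : |(1 - θ) * h| ≤ |h| := by
        rw [abs_mul]; nlinarith [abs_nonneg h, abs_nonneg (1 - θ)]
      have e1 := e _ _ hh b1
      have e2 := e (-h) _ (by simp) b2
      have e3 := e h _ le_rfl b3
      have e4 := e (-((1 - θ) * h)) _ (by simpa using hh) b4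
      have := abs_add_le ((1 - θ) * h * q (s - c) + -h * q (s - (c + θ * δ / 2)) +
        h * q (s - (c + δ - θ * δ / 2))) (-((1 - θ) * h) * q (s - (c + δ)))
      have := abs_add_le ((1 - θ) * h * q (s - c) + -h * q (s - (c + θ * δ / 2)))
        (h * q (s - (c + δ - θ * δ / 2)))
      have := abs_add_le ((1 - θ) * h * q (s - c)) (-h * q (s - (c + θ * δ / 2)))
      linarith
    · rw [hzero s hs, abs_zero]
      positivity
  · obtain ⟨hs1, hs2⟩ := hs
    rw [if_pos (by linarith), if_neg (by linarith), if_neg (by linarith), if_neg (by linarith)]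
    ring
  · obtain ⟨hs1, hs2⟩ := hs
    rw [if_pos (by linarith), if_pos (by linarith), if_neg (by linarith), if_neg (by linarith)]
    ring
  · obtain ⟨hs1, hs2⟩ := hs
    rw [if_pos (by linarith), if_pos (by linarith), if_pos (by linarith), if_neg (by linarith)]
    ring

/-- A cut-off function on `[a,b)`, equal to `1` on `[a+σ, b-σ)`. -/
theorem exists_cut (a b σ : ℝ) (hσ : 0 < σ) (hab : 2 * σ < b - a) :
    ∃ (f f2 : ℝ → ℝ) (C : ℝ), Has1 f f2 ∧ (∀ s, s ∉ Ico a b → f s = 0 ∧ f2 s = 0) ∧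
      (∀ s, 0 ≤ f s ∧ f s ≤ 1) ∧ (∀ s, |f2 s| ≤ C) ∧
      (∀ s ∈ Ico (a + σ) (b - σ), f s = 1 ∧ f2 s = 0) := by
  let φ : ContDiffBump ((a + b) / 2) :=
    ⟨(b - a) / 2 - σ / 2, (b - a) / 2 - σ / 4, by linarith, by linarith⟩
  have hc : ContDiff ℝ 3 φ := φ.contDiff
  have hc1 : ContDiff ℝ 2 (deriv φ) := by
    have : ContDiff ℝ (2 + 1) φ := by norm_num; exact hc
    exact this.deriv'
  have hc2 : ContDiff ℝ 1 (deriv (deriv φ)) := by
    have : ContDiff ℝ (1 + 1) (deriv φ) := by norm_num; exact hc1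
    exact this.deriv'
  have hs2 : HasCompactSupport (deriv (deriv φ)) := φ.hasCompactSupport.deriv.deriv
  obtain ⟨C, hC⟩ := hc2.continuous.bounded_above_of_compact_support hs2
  have key : ∀ (s v : ℝ), (φ : ℝ → ℝ) =ᶠ[𝓝 s] (fun _ => v) → φ s = v ∧ deriv (deriv φ) s = 0 := by
    intro s v hv
    refine ⟨hv.eq_of_nhds, ?_⟩
    have := hv.deriv.deriv.eq_of_nhds
    simpa using this
  refine ⟨φ, deriv (deriv φ), C, ⟨deriv φ, fun s => ?_, fun s => ?_⟩, fun s hs => ?_,
    fun s => ⟨φ.nonneg, φ.le_one⟩, fun s => hC s, fun s hs => ?_⟩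
  · exact ((hc.differentiable (by norm_num)) s).hasDerivAt
  · exact ((hc1.differentiable (by norm_num)) s).hasDerivAt.hasDerivWithinAt
  · apply key s 0
    have : s ∉ tsupport φ := by
      rw [φ.tsupport_eq, Metric.mem_closedBall, Real.dist_eq, abs_le]
      rw [mem_Ico] at hs
      intro h
      apply hs
      simp only [φ] at h
      constructor <;> linarith [h.1, h.2]
    exact notMem_tsupport_iff_eventuallyEq.1 this
  · apply key s 1
    have : s ∈ Metric.ball ((a + b) / 2) φ.rIn := by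
      rw [Metric.mem_ball, Real.dist_eq, abs_lt]
      simp only [φ]
      constructor <;> linarith [hs.1, hs.2]
    exact φ.eventuallyEq_one_of_mem_ball this

/-- Second-order necessary condition for a local minimum, with a right derivative. -/
theorem nonneg_of_isLocalMin {f g : ℝ → ℝ} {s₀ e : ℝ} (hf : ∀ᶠ s in 𝓝 s₀, HasDerivAt f (g s) s)
    (hg : HasDerivWithinAt g e (Ici s₀) s₀) (hmin : IsLocalMin f s₀) : 0 ≤ e := by
  by_contra hneg
  push Not at hneg
  have g0 : g s₀ = 0 := hmin.hasDerivAt_eq_zero hf.self_of_nhds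
  have hsl : Tendsto (slope g s₀) (𝓝[Ioi s₀] s₀) (𝓝 e) := by
    have := hasDerivWithinAt_iff_tendsto_slope.1 hg
    rwa [Ici_sdiff_left] at this
  have h1 : ∀ᶠ s in 𝓝[Ioi s₀] s₀, g s < 0 := by
    filter_upwards [hsl.eventually (gt_mem_nhds hneg), self_mem_nhdsWithin] with s hs hs'
    rw [slope_def_field, g0, sub_zero, div_neg_iff] at hs
    have : 0 < s - s₀ := sub_pos.2 hs'
    rcases hs with hs | hs
    · linarith [hs.2]
    · exact hs.1
  obtain ⟨r, hr, hr'⟩ := Metric.eventually_nhds_iff.1 (hf.and (hmin.and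
    (eventually_nhdsWithin_iff.1 h1)))
  have hd : ∀ s ∈ Icc s₀ (s₀ + r / 2), dist s s₀ < r := fun s hs => by
    rw [Real.dist_eq, abs_lt]; constructor <;> linarith [hs.1, hs.2]
  obtain ⟨c, hc, hc'⟩ := exists_hasDerivAt_eq_slope f g (show s₀ < s₀ + r / 2 by linarith)
    (fun s hs => (hr' (hd s hs)).1.continuousAt.continuousWithinAt)
    (fun s hs => (hr' (hd s (Ioo_subset_Icc_self hs))).1)
  have h2 := (hr' (hd c (Ioo_subset_Icc_self hc))).2.2 hc.1
  have h3 := (hr' (hd (s₀ + r / 2) ⟨by linarith, le_rfl⟩)).2.1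
  rw [hc', div_neg_iff] at h2
  rcases h2 with h2 | h2
  · linarith [h2.2]
  · linarith [h2.1]

end Pool.Agent.H926Z.W2
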